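import Pool.Agent.KS6_98.Orb.Num

/-!
# Classification of the chains of maximal length
-/

set_option autoImplicit false

namespace Pool.Agent.KS6_98.Orb

open Finset

theorem sum_two {M : Type*} [AddCommMonoid M] (f : ℕ → M) {s : Finset ℕ} {w j : ℕ} (hw : w ∈ s)
    (hj : j ∈ s) (hwj : w ≠ j) :
    ∑ i ∈ s, f i = f w + (f j + ∑ i ∈ (s.erase w).erase j, f i) := by
  rw [← Finset.add_sum_erase s f hw, ← Finset.add_sum_erase (s.erase w) f
    (Finset.mem_erase.2 ⟨hwj.symm, hj⟩)]

theorem classify {m N : ℕ} (hN : 9 ≤ N) {δ γ : List ℕ} {β : ℕ → List ℕ}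
    (hδ : δ.Pairwise (· > ·) ∧ ∀ r ∈ δ, 0 < r ∧ r < N)
    (hγ : γ.Pairwise (· > ·) ∧ ∀ r ∈ γ, 0 < r ∧ r < 6)
    (hβ : ∀ i < m + 1, (β i).Pairwise (· > ·) ∧ ∀ r ∈ β i, 0 < r ∧ r < 8)
    (hg : gp (8 * m + 14 + N) (Fl m δ γ β) = lamM m N) :
    δ = [] ∧ ∃ w ∈ range (m + 1), ∃ j ∈ range (m + 1), w ≠ j ∧ β w = [] ∧
      (∀ i ∈ range (m + 1), i ≠ w → i ≠ j → β i = [4]) ∧
      (((β j = [4, 2] ∨ β j = [6, 2] ∨ β j = [6, 4]) ∧ γ = []) ∨
        ((β j = [2] ∨ β j = [6]) ∧ (γ = [2] ∨ γ = [4]))) := by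
  rw [gp_Fl] at hg
  -- sizes
  have hlam : ∀ d ∈ lamM m N, d = N ∨ d % 2 = 0 := by
    intro d hd
    simp only [lamM, Multiset.mem_cons] at hd
    rcases hd with h | h | h | h | h | h
    · exact Or.inl h
    · right; omega
    · right; omega
    · right; omega
    · right; omega
    · rw [Multiset.eq_of_mem_replicate h]; right; rfl
  have hb8 : ∀ i < m + 1, ∀ d ∈ gp 8 (β i ++ [0]), d ≤ 8 := by
    intro i hi
    refine gp_le 8 _ 8 le_rfl fun q hq => ?_
    rcases List.mem_append.1 hq with h | h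
    · exact ((hβ i hi).2 q h).2.le
    · simp at h; omega
  have hg6 : ∀ d ∈ gp 6 (γ ++ [0]), d ≤ 6 := by
    refine gp_le 6 _ 6 le_rfl fun q hq => ?_
    rcases List.mem_append.1 hq with h | h
    · exact (hγ.2 q h).2.le
    · simp at h; omega
  have hmemb : ∀ i < m + 1, ∀ d ∈ gp 8 (β i ++ [0]), d ∈ lamM m N := by
    intro i hi d hd
    rw [← hg, Multiset.mem_add, Multiset.mem_add, Multiset.mem_sum]
    exact Or.inr (Or.inr ⟨i, by rwa [mem_range], hd⟩)
  have hbin : ∀ i < m + 1, β i = [] ∨ β i = [2] ∨ β i = [4] ∨ β i = [6] ∨ β i = [4, 2] ∨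
      β i = [6, 2] ∨ β i = [6, 4] ∨ β i = [6, 4, 2] := by
    intro i hi
    refine bin_cases _ (hβ i hi).1 (hβ i hi).2 fun d hd => ?_
    rcases hlam d (hmemb i hi d hd) with h | h
    · have := hb8 i hi d hd; omega
    · exact h
  have hgar : γ = [] ∨ γ = [2] ∨ γ = [4] ∨ γ = [4, 2] := by
    refine garb_cases _ hγ.1 hγ.2 fun d hd => ?_
    have h1 : d ∈ lamM m N := by
      rw [← hg, Multiset.mem_add, Multiset.mem_add]
      exact Or.inr (Or.inl hd)
    rcases hlam d h1 with h | h
    · have := hg6 d hd; omega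
    · exact h
  -- the last region
  have hδ0 : δ = [] := by
    have hNm : N ∈ lamM m N := by simp [lamM]
    rw [← hg, Multiset.mem_add, Multiset.mem_add, Multiset.mem_sum] at hNm
    rcases hNm with h | h | ⟨i, hi, h⟩
    · rcases δ with _ | ⟨q, δ⟩
      · rfl
      · exfalso
        have hq := hδ.2 q List.mem_cons_self
        rw [List.cons_append, gp, Multiset.mem_cons] at h
        rcases h with h | h
        · omega
        · have := gp_le q _ q le_rfl (fun r hr => by
            rcases List.mem_append.1 hr with h' | h'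
            · exact ((List.pairwise_cons.1 hδ.1).1 r h').le
            · simp at h'; omega) N h
          omega
    · have := hg6 N h; omega
    · have := hb8 i (by rwa [mem_range] at hi) N h; omega
  refine ⟨hδ0, ?_⟩
  subst hδ0
  -- counts
  set e : ℕ → ℕ := fun i => (gp 8 (β i ++ [0])).count 8 with he
  set s : ℕ → ℕ := fun i => (gp 8 (β i ++ [0])).count 6 with hs
  set t : ℕ → ℕ := fun i => (gp 8 (β i ++ [0])).count 2 with ht
  have hval : ∀ i ∈ range (m + 1), (β i = [] ∧ e i = 1 ∧ s i = 0 ∧ t i = 0) ∨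
      (β i = [2] ∧ e i = 0 ∧ s i = 1 ∧ t i = 1) ∨ (β i = [4] ∧ e i = 0 ∧ s i = 0 ∧ t i = 0) ∨
      (β i = [6] ∧ e i = 0 ∧ s i = 1 ∧ t i = 1) ∨ (β i = [4, 2] ∧ e i = 0 ∧ s i = 0 ∧ t i = 2) ∨
      (β i = [6, 2] ∧ e i = 0 ∧ s i = 0 ∧ t i = 2) ∨
      (β i = [6, 4] ∧ e i = 0 ∧ s i = 0 ∧ t i = 2) ∨
      (β i = [6, 4, 2] ∧ e i = 0 ∧ s i = 0 ∧ t i = 4) := by
    intro i hi
    simp only [he, hs, ht]
    rcases hbin i (by rwa [mem_range] at hi) with h | h | h | h | h | h | h | h <;> rw [h] <;>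
      decide
  have hc : ∀ a : ℕ, (lamM m N).count a = (gp N ([] ++ [0])).count a +
      ((gp 6 (γ ++ [0])).count a + ∑ i ∈ range (m + 1), (gp 8 (β i ++ [0])).count a) := by
    intro a
    rw [← hg, Multiset.count_add, Multiset.count_add, Multiset.count_sum']
  have hN1 : ∀ a : ℕ, a ≤ 8 → (gp N ([] ++ [0])).count a = 0 := by
    intro a ha
    rw [Multiset.count_eq_zero]
    simp [gp]
    omega
  have c8 := hc 8
  have c6 := hc 6
  have c2 := hc 2
  have l8 : (lamM m N).count 8 = 1 := by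
    simp [lamM, Multiset.count_cons, Multiset.count_replicate]
    omega
  have l6 : (lamM m N).count 6 = 1 := by
    simp [lamM, Multiset.count_cons, Multiset.count_replicate]
    omega
  have l2 : (lamM m N).count 2 = 2 := by
    simp [lamM, Multiset.count_cons, Multiset.count_replicate]
    omega
  rw [l8, hN1 8 le_rfl] at c8
  rw [l6, hN1 6 (by omega)] at c6
  rw [l2, hN1 2 (by omega)] at c2
  have g8 : (gp 6 (γ ++ [0])).count 8 = 0 := by
    rw [Multiset.count_eq_zero]
    intro h
    have := hg6 8 h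
    omega
  rw [g8] at c8
  change 1 = 0 + (0 + ∑ i ∈ range (m + 1), e i) at c8
  change 1 = 0 + (_ + ∑ i ∈ range (m + 1), s i) at c6
  change 2 = 0 + (_ + ∑ i ∈ range (m + 1), t i) at c2
  -- the empty bin
  obtain ⟨w, hw, hew⟩ : ∃ w ∈ range (m + 1), e w ≠ 0 := by
    by_contra hcon
    push Not at hcon
    rw [Finset.sum_eq_zero hcon] at c8
    omega
  have hsw : β w = [] ∧ s w = 0 ∧ t w = 0 ∧ e w = 1 := by
    rcases hval w hw with h | h | h | h | h | h | h | h
    · exact ⟨h.1, h.2.2.1, h.2.2.2, h.2.1⟩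
    all_goals exact absurd h.2.1 hew
  have hothers : ∀ i ∈ range (m + 1), i ≠ w → e i = 0 := by
    intro i hi hiw
    have h1 := sum_two e hw hi (Ne.symm hiw)
    rw [hsw.2.2.2] at h1
    omega
  -- the special bin
  obtain ⟨j, hj, htj⟩ : ∃ j ∈ range (m + 1), t j ≠ 0 := by
    by_contra hcon
    push Not at hcon
    rw [Finset.sum_eq_zero hcon] at c2
    have hs0 : ∑ i ∈ range (m + 1), s i = 0 := by
      refine Finset.sum_eq_zero fun i hi => ?_
      have h0 := hcon i hi
      rcases hval i hi with h | h | h | h | h | h | h | h <;> omega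
    rw [hs0] at c6
    rcases hgar with h | h | h | h <;> rw [h] at c2 c6 <;> revert c2 c6 <;> decide
  have hwj : w ≠ j := by
    rintro rfl
    exact htj hsw.2.2.1
  refine ⟨w, hw, j, hj, hwj, hsw.1, ?_, ?_⟩
  · intro i hi hiw hij
    have e1 := sum_two s hj hi (Ne.symm hij)
    have e2 := sum_two t hj hi (Ne.symm hij)
    have e3 := hothers i hi hiw
    have hjv := hval j hj
    have hiv := hval i hi
    have hgv : ((gp 6 (γ ++ [0])).count 6 = 1 ∧ (gp 6 (γ ++ [0])).count 2 = 0) ∨
        ((gp 6 (γ ++ [0])).count 6 = 0 ∧ (gp 6 (γ ++ [0])).count 2 = 1) ∨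
        ((gp 6 (γ ++ [0])).count 6 = 0 ∧ (gp 6 (γ ++ [0])).count 2 = 3) := by
      rcases hgar with h | h | h | h <;> rw [h] <;> decide
    rcases hiv with h | h | h | h | h | h | h | h
    · omega
    · omega
    · exact h.1
    all_goals omega
  · have e1 := sum_two s hw hj hwj
    have e2 := sum_two t hw hj hwj
    have hrest : ∀ i ∈ ((range (m + 1)).erase w).erase j, s i ≤ t i := by
      intro i hi
      have hi' := Finset.mem_of_mem_erase (Finset.mem_of_mem_erase hi)
      rcases hval i hi' with h | h | h | h | h | h | h | h <;> omega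
    have hrest' := Finset.sum_le_sum hrest
    have hjv := hval j hj
    rcases hgar with h | h | h | h
    · have k1 : (gp 6 (γ ++ [0])).count 6 = 1 := by rw [h]; decide
      rw [k1] at c6
      left
      refine ⟨?_, h⟩
      rcases hjv with h | h | h | h | h | h | h | h
      · omega
      · omega
      · omega
      · omega
      · exact Or.inl h.1
      · exact Or.inr (Or.inl h.1)
      · exact Or.inr (Or.inr h.1)
      · omega
    · have k1 : (gp 6 (γ ++ [0])).count 6 = 0 := by rw [h]; decide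
      have k2 : (gp 6 (γ ++ [0])).count 2 = 1 := by rw [h]; decide
      rw [k1] at c6
      rw [k2] at c2
      right
      refine ⟨?_, Or.inl h⟩
      rcases hjv with h | h | h | h | h | h | h | h
      · omega
      · exact Or.inl h.1
      · omega
      · exact Or.inr h.1
      all_goals omega
    · have k1 : (gp 6 (γ ++ [0])).count 6 = 0 := by rw [h]; decide
      have k2 : (gp 6 (γ ++ [0])).count 2 = 1 := by rw [h]; decide
      rw [k1] at c6
      rw [k2] at c2
      right
      refine ⟨?_, Or.inr h⟩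
      rcases hjv with h | h | h | h | h | h | h | h
      · omega
      · exact Or.inl h.1
      · omega
      · exact Or.inr h.1
      all_goals omega
    · have k2 : (gp 6 (γ ++ [0])).count 2 = 3 := by rw [h]; decide
      rw [k2] at c2
      omega

end Pool.Agent.KS6_98.Orb
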