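import Mathlib

/-!
# Orbit arrangements: the lattice `Π_λ` and reduced homology of a poset
-/

set_option autoImplicit false

namespace Pool.Agent.KS6_98.Orb

open Classical in
/-- The blocks of a set partition of `{0, ..., n-1}`, given as an equivalence relation. -/
noncomputable def blocks {n : ℕ} (s : Setoid (Fin n)) : Finset (Finset (Fin n)) :=
  Finset.univ.image fun a => Finset.univ.filter fun b => s a b

/-- The shape of a set partition: the multiset of its block sizes. -/
noncomputable def shape {n : ℕ} (s : Setoid (Fin n)) : Multiset ℕ :=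
  (blocks s).val.map Finset.card

/-- `Π_λ`: all joins of set partitions of shape `lam`, in the lattice of all set partitions
(ordered by refinement, finer partitions being lower). The empty join is the partition into
singletons. -/
def PiLam {n : ℕ} (lam : n.Partition) : Set (Setoid (Fin n)) :=
  {s | ∃ T : Set (Setoid (Fin n)), (∀ t ∈ T, shape t = lam.parts) ∧ s = sSup T}

/-- The proper part of `Π_λ`: the bottom element `⊥` (the partition into singletons) and the top
element `⊤` (the partition with one block) are removed. -/
abbrev ProperPart {n : ℕ} (lam : n.Partition) : Type :=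
  {s : Setoid (Fin n) // s ∈ PiLam lam ∧ s ≠ ⊥ ∧ s ≠ ⊤}

/-- The simplices with `k` vertices of the order complex of `P`: strictly increasing lists of
length `k` (for `k = 0` this is the empty simplex). -/
abbrev Simplex (P : Type) [PartialOrder P] (k : ℕ) : Type :=
  {l : List P // l.length = k ∧ l.Pairwise (· < ·)}

/-- The face obtained by deleting the vertex number `i`. -/
def face {P : Type} [PartialOrder P] {k : ℕ} (c : Simplex P (k + 1)) (i : Fin (k + 1)) :
    Simplex P k :=
  ⟨c.1.eraseIdx i, by
    rw [List.length_eraseIdx_of_lt (by rw [c.2.1]; exact i.2), c.2.1]; rfl,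
    c.2.2.sublist (List.eraseIdx_sublist _ _)⟩

/-- The simplicial boundary map of the augmented chain complex with integer coefficients, from
chains of simplices with `k + 1` vertices to chains of simplices with `k` vertices. -/
noncomputable def boundary (P : Type) [PartialOrder P] (k : ℕ) :
    (Simplex P (k + 1) →₀ ℤ) →ₗ[ℤ] (Simplex P k →₀ ℤ) :=
  Finsupp.linearCombination ℤ fun c =>
    ∑ i : Fin (k + 1), (-1 : ℤ) ^ (i : ℕ) • Finsupp.single (face c i) (1 : ℤ)

/-- The reduced simplicial homology in dimension `i` of the order complex of `P`, with integer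
coefficients (cycles modulo boundaries), has an element of order exactly `m`: there is a cycle
`z` in dimension `i` such that, for every integer `k`, the multiple `k z` is a boundary if and
only if `m` divides `k`. -/
def ElementOfOrder (P : Type) [PartialOrder P] (i m : ℕ) : Prop :=
  ∃ z : Simplex P (i + 1) →₀ ℤ, boundary P i z = 0 ∧
    ∀ k : ℤ, (∃ w, boundary P (i + 1) w = k • z) ↔ (m : ℤ) ∣ k

/-- The reduced homology group itself: cycles (combinations of simplices with `i + 1` vertices
with zero boundary) modulo boundaries. It is used only for comparison. -/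
abbrev RedHomology (P : Type) [PartialOrder P] (i : ℕ) : Type :=
  LinearMap.ker (boundary P i) ⧸
    (LinearMap.range (boundary P (i + 1))).submoduleOf (LinearMap.ker (boundary P i))

/-- `ElementOfOrder` says that the group `RedHomology P i` has an element of additive order
`m`. -/
theorem elementOfOrder_iff (P : Type) [PartialOrder P] (i m : ℕ) :
    ElementOfOrder P i m ↔ ∃ x : RedHomology P i, addOrderOf x = m := by
  have key : ∀ (z : Simplex P (i + 1) →₀ ℤ) (hz : boundary P i z = 0) (k : ℤ),
      (∃ w, boundary P (i + 1) w = k • z) ↔
        k • (Submodule.Quotient.mk ⟨z, LinearMap.mem_ker.2 hz⟩ : RedHomology P i) = 0 := by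
    intro z hz k
    rw [← Submodule.Quotient.mk_smul, Submodule.Quotient.mk_eq_zero]
    exact Iff.rfl
  have key2 : ∀ x : RedHomology P i, addOrderOf x = m ↔ ∀ k : ℤ, k • x = 0 ↔ (m : ℤ) ∣ k := by
    intro x
    constructor
    · rintro rfl k
      exact addOrderOf_dvd_iff_zsmul_eq_zero.symm
    · intro h
      apply Nat.dvd_antisymm
      · rw [← Int.natCast_dvd_natCast, addOrderOf_dvd_iff_zsmul_eq_zero, h]
      · rw [← Int.natCast_dvd_natCast, ← h, ← addOrderOf_dvd_iff_zsmul_eq_zero]
  constructor
  · rintro ⟨z, hz, h⟩
    refine ⟨Submodule.Quotient.mk ⟨z, LinearMap.mem_ker.2 hz⟩, ?_⟩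
    rw [key2]
    intro k
    rw [← key z hz k]
    exact h k
  · rintro ⟨x, hx⟩
    obtain ⟨⟨z, hz⟩, rfl⟩ := Submodule.Quotient.mk_surjective _ x
    refine ⟨z, LinearMap.mem_ker.1 hz, fun k => ?_⟩
    rw [key z (LinearMap.mem_ker.1 hz) k]
    exact (key2 _).1 hx k

end Pool.Agent.KS6_98.Orb
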