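import Pool.Agent.KS6_98.Orb.Lattice

/-!
# Elements of order `m` in the homology of `Π_λ`
-/

set_option autoImplicit false

namespace Pool.Agent.KS6_98.Orb

open Finset

/-- codes of the letters `x` -/
def Xc (i : ℕ) : Code := (8 * i + 4, false)

/-- codes of the letters `u` -/
def Uc (i : ℕ) : Code := (8 * i + 2, false)

/-- code of the letter `g` -/
def gc (m : ℕ) : Code := (8 * m + 10, false)

/-- the sizes of the suspension points -/
def csz (m a : ℕ) : ℕ := if a ≤ m then 8 * (a + 1) else 8 * m + 14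

/-- the pairs of suspension points -/
def CP (m : ℕ) : List (Code × Code) :=
  (List.range (m + 2)).map fun a => ((csz m a, false), (csz m a, true))

theorem Xc_inj : Function.Injective Xc := by
  intro a b h
  have := congrArg Prod.fst h
  simp only [Xc] at this
  omega

/-- choice of suspension points -/
def Cho (m : ℕ) (cs : List Code) : Prop :=
  List.Forall₂ (fun c (p : Code × Code) => c = p.1 ∨ c = p.2) cs (CP m)

theorem cho_fst {m : ℕ} {cs : List Code} (h : Cho m cs) :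
    cs.map Prod.fst = (List.range (m + 2)).map (csz m) := by
  unfold Cho CP at h
  generalize List.range (m + 2) = L at h ⊢
  induction L generalizing cs with
  | nil =>
    rw [List.map_nil, List.forall₂_nil_right_iff] at h
    rw [h]; rfl
  | cons a L ih =>
    rw [List.map_cons, List.forall₂_cons_right_iff] at h
    obtain ⟨c, cs', h1, h2, rfl⟩ := h
    rw [List.map_cons, List.map_cons, ih h2]
    congr 1
    rcases h1 with rfl | rfl <;> rfl

theorem cho_length {m : ℕ} {cs : List Code} (h : Cho m cs) : cs.length = m + 2 := by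
  have := congrArg List.length (cho_fst h)
  simpa using this

theorem csz_cases {m a : ℕ} (_ : a < m + 2) :
    (∃ i ≤ m + 1, csz m a = 8 * i ∧ 0 < i) ∨ csz m a = 8 * m + 14 := by
  unfold csz
  split_ifs with h
  · exact Or.inl ⟨a + 1, by omega, rfl, by omega⟩
  · exact Or.inr rfl

theorem csz_nodup (m : ℕ) : ((List.range (m + 2)).map (csz m)).Nodup := by
  refine List.Nodup.map_on ?_ List.nodup_range
  intro a ha b hb h
  rw [List.mem_range] at ha hb
  unfold csz at h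
  split_ifs at h <;> omega

theorem good_of {m N w j : ℕ} {γ : List ℕ} {β : ℕ → List ℕ} (hw : w ∈ range (m + 1))
    (hj : j ∈ range (m + 1)) (hwj : w ≠ j) (h1 : β w = [])
    (h2 : ∀ i ∈ range (m + 1), i ≠ w → i ≠ j → β i = [4])
    (h3 : (β j = [4, 2] ∧ γ = []) ∨ (β j = [2] ∧ γ = [2])) {cs l : List Code} (hcs : Cho m cs)
    (hl : l.Nodup) (hl2 : ∀ p ∈ l, p.2 = false ∧ p.1 % 8 ≠ 0 ∧ p.1 ≠ 8 * m + 14 ∧
      p.1 ∈ Fl m [] γ β) : GoodL m N (cs ++ l) := by
  have hβ : ∀ i < m + 1, ((β i).Pairwise (· > ·) ∧ ∀ r ∈ β i, 0 < r ∧ r < 8) ∧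
      ∀ r ∈ β i, r % 2 = 0 := by
    intro i hi
    by_cases hiw : i = w
    · rw [hiw, h1]
      exact ⟨⟨List.Pairwise.nil, by simp⟩, by simp⟩
    · by_cases hij : i = j
      · rw [hij]
        rcases h3 with ⟨h3, _⟩ | ⟨h3, _⟩ <;> rw [h3] <;> simp
      · rw [h2 i (by rwa [mem_range]) hiw hij]
        simp
  have hγ : (γ.Pairwise (· > ·) ∧ ∀ r ∈ γ, 0 < r ∧ r < 6) ∧ ∀ r ∈ γ, r % 2 = 0 := by
    rcases h3 with ⟨_, h3⟩ | ⟨_, h3⟩ <;> rw [h3] <;> simp
  obtain ⟨sz, hsz⟩ := Fl_last m [] γ β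
  obtain ⟨hp, hlt⟩ := Fl_pairwise hγ.1 fun i hi => (hβ i hi).1
  have hev := Fl_even hγ.2 fun i hi => (hβ i hi).2
  have hgp := gp_valid (N := N) hw hj hwj h1 h2 h3
  have hpos : sz.Pairwise (· > ·) ∧ ∀ q ∈ sz, 0 < q := by
    rw [hsz, List.pairwise_append] at hp
    exact ⟨hp.1, fun q hq => hp.2.2 q hq 0 (by simp)⟩
  have hmem : ∀ q ∈ Fl m [] γ β, 0 < q → q ∈ sz := by
    intro q hq hq0
    rw [hsz, List.mem_append, List.mem_singleton] at hq
    rcases hq with hq | hq
    · exact hq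
    · omega
  have hfst := cho_fst hcs
  refine ⟨?_, sz, hpos.1, ?_, ?_, ?_⟩
  · rw [List.map_append, hfst, List.nodup_append]
    refine ⟨csz_nodup m, ?_, ?_⟩
    · refine List.Nodup.map_on ?_ hl
      intro a ha b hb h
      exact Prod.ext h ((hl2 a ha).1.trans (hl2 b hb).1.symm)
    · intro a ha b hb hab
      obtain ⟨a', ha', rfl⟩ := List.mem_map.1 ha
      obtain ⟨p, hp', rfl⟩ := List.mem_map.1 hb
      rw [List.mem_range] at ha'
      have := hl2 p hp'
      rcases csz_cases ha' with ⟨i, _, h5, _⟩ | h5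
      · rw [h5] at hab
        omega
      · rw [h5] at hab
        omega
  · intro q hq
    have hq' : q ∈ Fl m [] γ β := by rw [hsz]; exact List.mem_append_left _ hq
    exact ⟨hpos.2 q hq, hlt q hq', hev q hq'⟩
  · rw [← hsz]
    exact hgp
  · intro p hp'
    rcases List.mem_append.1 hp' with h | h
    · have h6 : p.1 ∈ cs.map Prod.fst := List.mem_map_of_mem h
      rw [hfst] at h6
      obtain ⟨a, ha, h7⟩ := List.mem_map.1 h6
      rw [List.mem_range] at ha
      rw [← h7]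
      rcases csz_cases ha with ⟨i, hi, h5, hi0⟩ | h5
      · rw [h5]
        exact hmem _ (mem_Fl (Or.inr (Or.inr (Or.inl ⟨i, hi, rfl⟩)))) (by omega)
      · rw [h5]
        exact hmem _ (mem_Fl (Or.inl rfl)) (by omega)
    · have h8 := hl2 p h
      exact hmem _ h8.2.2.2 (by omega)

/-- type A -/
theorem goodA {m N w j : ℕ} (hw : w ∈ range (m + 1)) (hj : j ∈ range (m + 1)) (hwj : w ≠ j)
    {cs l : List Code} (hcs : Cho m cs) (hl : l.Nodup)
    (hl2 : ∀ p ∈ l, p = Uc j ∨ ∃ i ∈ range (m + 1), i ≠ w ∧ p = Xc i) :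
    GoodL m N (cs ++ l) := by
  refine good_of (γ := []) (β := fun i => if i = j then [4, 2] else if i = w then [] else [4])
    hw hj hwj ?_ ?_ ?_ hcs hl ?_
  · simp [hwj]
  · intro i _ h1 h2
    simp [h1, h2]
  · left; simp
  · intro p hp
    rw [mem_range] at hj
    rcases hl2 p hp with rfl | ⟨i, hi, hiw, rfl⟩
    · refine ⟨rfl, ?_, ?_, mem_Fl (Or.inr (Or.inr (Or.inr ⟨j, hj, 2, by simp, rfl⟩)))⟩
      · simp only [Uc]; omega
      · simp only [Uc]; omega
    · rw [mem_range] at hi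
      refine ⟨rfl, ?_, ?_, mem_Fl (Or.inr (Or.inr (Or.inr ⟨i, hi, 4, ?_, rfl⟩)))⟩
      · simp only [Xc]; omega
      · simp only [Xc]; omega
      · by_cases hij : i = j
        · simp [hij]
        · simp [hij, hiw]

/-- type B -/
theorem goodB {m N w j : ℕ} (hw : w ∈ range (m + 1)) (hj : j ∈ range (m + 1)) (hwj : w ≠ j)
    {cs l : List Code} (hcs : Cho m cs) (hl : l.Nodup)
    (hl2 : ∀ p ∈ l, p = Uc j ∨ p = gc m ∨ ∃ i ∈ range (m + 1), i ≠ w ∧ i ≠ j ∧ p = Xc i) :
    GoodL m N (cs ++ l) := by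
  refine good_of (γ := [2]) (β := fun i => if i = j then [2] else if i = w then [] else [4])
    hw hj hwj ?_ ?_ ?_ hcs hl ?_
  · simp [hwj]
  · intro i _ h1 h2
    simp [h1, h2]
  · right; simp
  · intro p hp
    rw [mem_range] at hj
    rcases hl2 p hp with rfl | rfl | ⟨i, hi, hiw, hij, rfl⟩
    · refine ⟨rfl, ?_, ?_, mem_Fl (Or.inr (Or.inr (Or.inr ⟨j, hj, 2, by simp, rfl⟩)))⟩
      · simp only [Uc]; omega
      · simp only [Uc]; omega
    · refine ⟨rfl, ?_, ?_, mem_Fl (Or.inr (Or.inl ⟨2, by simp, rfl⟩))⟩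
      · simp only [gc]; omega
      · simp only [gc]; omega
    · rw [mem_range] at hi
      refine ⟨rfl, ?_, ?_, mem_Fl (Or.inr (Or.inr (Or.inr ⟨i, hi, 4, ?_, rfl⟩)))⟩
      · simp only [Xc]; omega
      · simp only [Xc]; omega
      · simp [hij, hiw]

/-! ### Spans of words -/

/-- the span of the words in a set of lists -/
noncomputable def Sp (S : Set (List Code)) : Submodule ℤ (EE Code) :=
  Submodule.span ℤ {x | ∃ l ∈ S, x = word l}

theorem Sp_le {S : Set (List Code)} {M : Submodule ℤ (EE Code)} (h : ∀ l ∈ S, word l ∈ M) :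
    Sp S ≤ M := by
  refine Submodule.span_le.2 ?_
  rintro x ⟨l, hl, rfl⟩
  exact h l hl

theorem Sp_word {S : Set (List Code)} {l : List Code} (h : l ∈ S) : word l ∈ Sp S :=
  Submodule.subset_span ⟨l, h, rfl⟩

theorem Sp_map {S S' : Set (List Code)} (F : EE Code →ₗ[ℤ] EE Code)
    (h : ∀ l ∈ S, F (word l) ∈ Sp S') {y : EE Code} (hy : y ∈ Sp S) : F y ∈ Sp S' := by
  have : Sp S ≤ (Sp S').comap F := Sp_le h
  exact this hy

theorem St_mem {m : ℕ} {S S' : Set (List Code)}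
    (h : ∀ l ∈ S, ∀ cs, Cho m cs → cs ++ l ∈ S') {y : EE Code} (hy : y ∈ Sp S) :
    St (CP m) y ∈ Sp S' := by
  refine Sp_map _ (fun l hl => ?_) hy
  have h1 := St_word_mem (CP m) l
  have h2 : Submodule.span ℤ {x | ∃ cs : List Code,
      List.Forall₂ (fun c (p : Code × Code) => c = p.1 ∨ c = p.2) cs (CP m) ∧
        x = word (cs ++ l)} ≤ Sp S' := by
    refine Submodule.span_le.2 ?_
    rintro x ⟨cs, hcs, rfl⟩
    exact Sp_word (h l hl cs hcs)
  exact h2 h1

/-- the list of the codes `x` -/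
def Xs (m : ℕ) : List Code := (List.range (m + 1)).map Xc

theorem Xs_length (m : ℕ) : (Xs m).length = m + 1 := by simp [Xs]

theorem Xs_nd (m : ℕ) : (Xs m).Nodup := Xs_nodup Xc_inj

theorem zc_eq (m : ℕ) : zc Xc m = bdE (word (Xs m)) := rfl

theorem bdE_word_mem (l : List Code) :
    bdE (word l) ∈ Sp {l' | l'.Sublist l ∧ l'.length + 1 = l.length} := by
  have h1 := Dc_word_mem (fun _ => (1 : ℤ)) l
  refine Submodule.span_mono ?_ h1
  rintro x ⟨l', h2, h3, rfl⟩
  exact ⟨l', ⟨h2, h3⟩, rfl⟩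

theorem Dl_Sp (a : Code) {l : List Code} (hl : l.Nodup) :
    Dl a (word l) ∈ Sp {l' | l'.Sublist l ∧ l'.length + 1 = l.length ∧ a ∉ l'} := by
  refine Submodule.span_mono ?_ (Dl_word_mem a hl)
  rintro x ⟨l', h2, h3, h4, rfl⟩
  exact ⟨l', ⟨h2, h3, h4⟩, rfl⟩

theorem Sp_mono {S S' : Set (List Code)} (h : S ⊆ S') : Sp S ≤ Sp S' :=
  Sp_le fun _ hl => Sp_word (h hl)

theorem zc_mem (m : ℕ) : zc Xc m ∈ Sp {l | l.Sublist (Xs m) ∧ l.length = m} := by
  rw [zc_eq]
  refine Sp_mono ?_ (bdE_word_mem (Xs m))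
  rintro l ⟨h2, h3⟩
  rw [Xs_length] at h3
  exact ⟨h2, by omega⟩

theorem Dzc_mem (m j : ℕ) : Dl (Xc j) (zc Xc m) ∈
    Sp {l | l.Sublist (Xs m) ∧ l.length + 1 = m ∧ Xc j ∉ l} := by
  rw [zc_eq, Dl_bdE]
  refine Submodule.neg_mem _ ?_
  refine Sp_map bdE (fun l hl => ?_) (Dl_Sp (Xc j) (Xs_nd m))
  obtain ⟨h3, h4, h5⟩ := hl
  refine Sp_mono ?_ (bdE_word_mem l)
  rintro l' ⟨h7, h8⟩
  rw [Xs_length] at h4
  exact ⟨h7.trans h3, by omega, fun h => h5 (h7.subset h)⟩

theorem exists_missing (s : Finset ℕ) {l : List Code} (h : l.length < s.card) :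
    ∃ w ∈ s, Xc w ∉ l := by
  by_contra hcon
  push Not at hcon
  have h1 : (s.toList.map Xc).Nodup := List.Nodup.map Xc_inj (Finset.nodup_toList s)
  have h2 : s.toList.map Xc ⊆ l := by
    intro p hp
    obtain ⟨i, hi, rfl⟩ := List.mem_map.1 hp
    exact hcon i (Finset.mem_toList.1 hi)
  have h3 := (List.subperm_of_subset h1 h2).length_le
  rw [List.length_map, Finset.length_toList] at h3
  omega

theorem sub_Xs {m : ℕ} {l : List Code} (h : l.Sublist (Xs m)) {p : Code} (hp : p ∈ l) :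
    ∃ i ∈ range (m + 1), p = Xc i := Xs_mem (h.subset hp)

/-- good lists of given length -/
def GS (m N k : ℕ) : Set (List Code) := {l | GoodL m N l ∧ l.length = k}

theorem Stz_mem {m N : ℕ} (hm : 1 ≤ m) :
    St (CP m) (zc Xc m) ∈ Sp (GS m N (2 * m + 2)) := by
  refine St_mem ?_ (zc_mem m)
  rintro l ⟨h1, h2⟩ cs hcs
  obtain ⟨w, hw, hwl⟩ := exists_missing (range (m + 1)) (l := l)
    (by rw [card_range]; omega)
  obtain ⟨j, hj, hwj⟩ : ∃ j ∈ range (m + 1), w ≠ j := by
    by_cases h0 : w = 0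
    · exact ⟨1, by rw [mem_range]; omega, by omega⟩
    · exact ⟨0, by rw [mem_range]; omega, h0⟩
  refine ⟨goodA hw hj hwj hcs ((Xs_nd m).sublist h1) fun p hp => Or.inr ?_, ?_⟩
  · obtain ⟨i, hi, rfl⟩ := sub_Xs h1 hp
    exact ⟨i, hi, fun e => hwl (e ▸ hp), rfl⟩
  · rw [List.length_append, cho_length hcs, h2]
    omega

theorem Sty_mem {m N : ℕ} (hm : 1 ≤ m) :
    St (CP m) (yc Xc Uc (gc m) m) ∈ Sp (GS m N (2 * m + 3)) := by
  have hy : yc Xc Uc (gc m) m ∈ Sp {l | ∃ j ∈ range (m + 1), ∃ l' : List Code,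
      (l'.Sublist (Xs m) ∧ l'.length + 1 = m ∧ Xc j ∉ l') ∧
        (l = gc m :: Uc j :: l' ∨ l = Uc j :: Xc j :: l')} := by
    rw [yc]
    refine Submodule.sum_mem _ fun j hj => Submodule.add_mem _ ?_ ?_
    · refine Sp_map (ins (gc m) ∘ₗ ins (Uc j)) (fun l hl => ?_) (Dzc_mem m j)
      rw [LinearMap.comp_apply, ← word_cons, ← word_cons]
      exact Sp_word ⟨j, hj, l, hl, Or.inl rfl⟩
    · refine Sp_map (ins (Uc j) ∘ₗ ins (Xc j)) (fun l hl => ?_) (Dzc_mem m j)
      rw [LinearMap.comp_apply, ← word_cons, ← word_cons]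
      exact Sp_word ⟨j, hj, l, hl, Or.inr rfl⟩
  refine St_mem ?_ hy
  rintro l ⟨j, hj, l', ⟨h1, h2, h3⟩, hl⟩ cs hcs
  obtain ⟨w, hw, hwl⟩ := exists_missing ((range (m + 1)).erase j) (l := l')
    (by rw [card_erase_of_mem hj, card_range]; omega)
  rw [mem_erase] at hw
  have hwj : w ≠ j := hw.1
  have hX : ∀ p ∈ l', ∃ i ∈ range (m + 1), i ≠ w ∧ i ≠ j ∧ p = Xc i := by
    intro p hp
    obtain ⟨i, hi, rfl⟩ := sub_Xs h1 hp
    exact ⟨i, hi, fun e => hwl (e ▸ hp), fun e => h3 (e ▸ hp), rfl⟩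
  have hnd := (Xs_nd m).sublist h1
  have hUl : Uc j ∉ l' := by
    intro h
    obtain ⟨i, _, _, _, e⟩ := hX _ h
    have := congrArg Prod.fst e
    simp only [Xc, Uc] at this
    omega
  have hjm : j < m + 1 := mem_range.1 hj
  rcases hl with rfl | rfl
  · refine ⟨goodB hw.2 hj hwj hcs ?_ ?_, ?_⟩
    · rw [List.nodup_cons, List.nodup_cons]
      refine ⟨?_, hUl, hnd⟩
      intro h
      rcases List.mem_cons.1 h with h | h
      · have := congrArg Prod.fst h
        simp only [gc, Uc] at this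
        omega
      · obtain ⟨i, _, _, _, e⟩ := hX _ h
        have := congrArg Prod.fst e
        simp only [Xc, gc] at this
        omega
    · intro p hp
      rcases List.mem_cons.1 hp with rfl | hp
      · exact Or.inr (Or.inl rfl)
      · rcases List.mem_cons.1 hp with rfl | hp
        · exact Or.inl rfl
        · exact Or.inr (Or.inr (hX p hp))
    · simp only [List.length_append, List.length_cons, cho_length hcs]
      omega
  · refine ⟨goodA hw.2 hj hwj hcs ?_ ?_, ?_⟩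
    · rw [List.nodup_cons, List.nodup_cons]
      refine ⟨?_, h3, hnd⟩
      intro h
      rcases List.mem_cons.1 h with h | h
      · have := congrArg Prod.fst h
        simp only [Xc, Uc] at this
        omega
      · exact hUl h
    · intro p hp
      rcases List.mem_cons.1 hp with rfl | hp
      · exact Or.inl rfl
      · rcases List.mem_cons.1 hp with rfl | hp
        · exact Or.inr ⟨j, hj, hwj.symm, rfl⟩
        · obtain ⟨i, hi, h4, _, rfl⟩ := hX p hp
          exact Or.inr ⟨i, hi, h4, rfl⟩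
    · simp only [List.length_append, List.length_cons, cho_length hcs]
      omega

/-! ### The subdivision -/

section

variable {m N n : ℕ}

/-- the partition belonging to a list of codes -/
def bb (n : ℕ) (l : List Code) : Setoid (Fin n) := bset (l.map (Ss n))

theorem bb_perm (n : ℕ) (l l' : List Code) (h : l.Perm l') : bb n l = bb n l' :=
  bset_perm (h.map _)

theorem SdE_supp (hN : 9 ≤ N) (hn : n = 8 * m + 14 + N) {lam : n.Partition}
    (hlam : lam.parts = lamM m N) {k : ℕ} {y : EE Code} (hy : y ∈ Sp (GS m N k)) :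
    SdE (bb n) (bb_perm n) k y ∈ Finsupp.supported ℤ ℤ (Wl (PrP lam) k) := by
  have h : Sp (GS m N k) ≤
      (Finsupp.supported ℤ ℤ (Wl (PrP lam) k)).comap (SdE (bb n) (bb_perm n) k) := by
    refine Sp_le ?_
    rintro l ⟨hl, hk⟩
    show SdE (bb n) (bb_perm n) k (mkE (Finsupp.single l 1)) ∈
      Finsupp.supported ℤ ℤ (Wl (PrP lam) k)
    rw [SdE_mkE]
    have h0 := SdF_supp (bb n) (R := (· < ·)) (A := PrP lam) k l hk
      (fun l₁ l₂ h1 h2 _ h3 => (hl.sublist h2).strict hN hn h1 h3)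
      (fun l₁ h1 h2 => (hl.sublist h1).prp hN hn hlam h2)
    refine Finsupp.supported_mono ?_ h0
    rintro L ⟨h1, h2, h3⟩
    exact ⟨h1, h2, fun s hs => (h3 s hs).1⟩
  exact h hy

theorem mp_SdE (hN : 9 ≤ N) (hn : n = 8 * m + 14 + N) {z : Fin n} (hz : z.val = n - 1)
    {k : ℕ} {y : EE Code} (hy : y ∈ Sp (GS m N k)) :
    mkE (mp (Tz z) (SdE (bb n) (bb_perm n) k y)) = mpE (Ss n) y := by
  have h : Sp (GS m N k) ≤
      LinearMap.ker ((mkE ∘ₗ mp (Tz z) ∘ₗ SdE (bb n) (bb_perm n) k) - mpE (Ss n)) := by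
    refine Sp_le ?_
    rintro l ⟨hl, hk⟩
    rw [LinearMap.mem_ker, LinearMap.sub_apply, sub_eq_zero, mpE_word]
    show mkE (mp (Tz z) (SdE (bb n) (bb_perm n) k (mkE (Finsupp.single l 1)))) = _
    rw [SdE_mkE]
    refine mp_SdF (bb n) (Tz z) (Ss n) k l hk fun l₁ h1 h2 => ?_
    exact (hl.sublist h1).exists_T hN hn hz h2
  have h2 := h hy
  rw [LinearMap.mem_ker, LinearMap.sub_apply, sub_eq_zero] at h2
  exact h2

/-- the label of the set of a code -/
def lc (n m : ℕ) (p : Code) : Lab := labS n m (Ss n p)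

theorem lc_false (hN : 9 ≤ N) (hn : n = 8 * m + 14 + N) {q : ℕ} (h1 : 1 ≤ q)
    (h2 : q ≤ 8 * m + 14) : lc n m (q, false) = labN m q := by
  have hc : (Ss n (q, false)).card = q := Ss_card (p := (q, false)) h1 (by show q < n; omega)
  rw [lc, labS, hc, if_neg]
  rintro ⟨_, h⟩
  exact h rfl

theorem lc_true (hN : 9 ≤ N) (hn : n = 8 * m + 14 + N) {a : ℕ} (ha : a < m + 2) :
    lc n m (csz m a, true) = Lab.g := by
  have hb : 1 ≤ csz m a ∧ csz m a ≤ 8 * m + 14 := by
    rcases csz_cases ha with ⟨i, hi, h, h0⟩ | h <;> omega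
  have hc : (Ss n (csz m a, true)).card = csz m a :=
    Ss_card (p := (csz m a, true)) hb.1 (by show csz m a < n; omega)
  rw [lc, labS, hc, if_pos]
  refine ⟨?_, ?_⟩
  · rcases csz_cases ha with ⟨i, hi, h, h0⟩ | h
    · right; omega
    · left; exact h
  · intro h
    have h1 : (⟨csz m a, by omega⟩ : Fin n) ∈ Ss n (csz m a, true) := by
      rw [mem_Ss]
      exact Or.inr ⟨rfl, Or.inr rfl⟩
    rw [h, mem_Ss] at h1
    simp at h1

theorem zc_map {α β : Type*} (f : α → β) (X : ℕ → α) (X' : ℕ → β)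
    (h : ∀ i < m + 1, f (X i) = X' i) : mpE f (zc X m) = zc X' m := by
  rw [zc, ← bdE_mpE, Wd, mpE_word, List.map_map, zc, Wd]
  congr 2
  refine List.map_congr_left fun i hi => ?_
  exact h i (List.mem_range.1 hi)

theorem detectSt (hN : 9 ≤ N) (hn : n = 8 * m + 14 + N) :
    DC (CL m) (mpE (lc n m) (St (CP m) (zc Xc m))) = zc Lab.x m := by
  have h1 : mpE (lc n m) (zc Xc m) = zc Lab.x m := by
    refine zc_map _ _ _ fun i hi => ?_
    rw [Xc, lc_false hN hn (by omega) (by omega), labN_x hi]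
  have h2 : (CP m).map (Prod.map (lc n m) (lc n m)) =
      (List.range (m + 2)).map fun a => (Lab.c a, Lab.g) := by
    rw [CP, List.map_map]
    refine List.map_congr_left fun a ha => ?_
    rw [List.mem_range] at ha
    show (lc n m (csz m a, false), lc n m (csz m a, true)) = (Lab.c a, Lab.g)
    rw [lc_true hN hn ha]
    congr 1
    have hb : 1 ≤ csz m a ∧ csz m a ≤ 8 * m + 14 := by
      rcases csz_cases ha with ⟨i, hi, h, h0⟩ | h <;> omega
    rw [lc_false hN hn hb.1 hb.2]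
    unfold csz
    split_ifs with h
    · exact labN_c h
    · rw [labN_top]
      congr 1
      omega
  rw [mpE_St, h1, h2]
  have h3 : CL m = ((List.range (m + 2)).map fun a => (Lab.c a, Lab.g)).map Prod.fst := by
    rw [List.map_map]
    rfl
  rw [h3]
  refine DC_St ?_ ?_ ?_
  · rw [← h3, CL]
    exact List.Nodup.map (fun _ _ h => Lab.c.inj h) List.nodup_range
  · intro p hp q hq
    obtain ⟨a, _, rfl⟩ := List.mem_map.1 hp
    obtain ⟨b, _, rfl⟩ := List.mem_map.1 hq
    simp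
  · intro p hp
    obtain ⟨a, _, rfl⟩ := List.mem_map.1 hp
    show Dl (Lab.c a) (zc Lab.x m) = 0
    rw [zc, Dl_bdE, Wd, Dl_word_of_not_mem, map_zero, neg_zero]
    intro h
    obtain ⟨i, _, e⟩ := Xs_mem h
    simp at e

/-- **Main theorem.** -/
theorem main (hm : 1 ≤ m) (hN : 9 ≤ N) (hn : n = 8 * m + 14 + N) (lam : n.Partition)
    (hlam : lam.parts = lamM m N) :
    ElementOfOrder (ProperPart lam) (2 * m + 1) m := by
  set z : Fin n := ⟨n - 1, by omega⟩ with hz
  have hzv : z.val = n - 1 := rfl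
  have hlen : (CP m).length = m + 2 := by simp [CP]
  have hz1 := Stz_mem (N := N) hm
  have hy1 := Sty_mem (N := N) hm
  refine exists_order (PrP lam) (i := 2 * m + 1) (m := m)
    (Z := SdE (bb n) (bb_perm n) (2 * m + 2) (St (CP m) (zc Xc m)))
    (W := (-1 : ℤ) ^ (m + 2) • SdE (bb n) (bb_perm n) (2 * m + 3) (St (CP m) (yc Xc Uc (gc m) m)))
    (SdE_supp hN hn hlam hz1) (Submodule.smul_mem _ _ (SdE_supp hN hn hlam hy1)) ?_ ?_ ?_
  · rw [bdF_SdE, bdE_St, bdE_zc, map_zero, smul_zero, map_zero]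
  · rw [map_smul, bdF_SdE, bdE_St, bdE_yc Xc_inj, hlen, map_smul, smul_smul, ← mul_pow]
    norm_num
  · intro k V hV hbd
    have hF : ∀ V' : FL (Setoid (Fin n)),
        DC (CL m) (mpE (labS n m) (mkE (mp (Tz z) (bdF V')))) =
          (-1 : ℤ) ^ (m + 2) • bdE (DC (CL m) (mpE (labS n m) (mkE (mp (Tz z) V')))) := by
      intro V'
      rw [← bdF_mp, ← bdE_mkE, ← bdE_mpE, DC_bdE]
      congr 2
      simp [CL]
    have h1 := hF V
    rw [hbd, map_smul, map_smul, map_smul, map_smul, mp_SdE hN hn hzv hz1, mpE_mpE] at h1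
    have h2 := detectSt (m := m) hN hn
    have h3 : (labS n m ∘ Ss n) = lc n m := rfl
    rw [h3, h2] at h1
    have h4 : DC (CL m) (mpE (labS n m) (mkE (mp (Tz z) V))) ∈ MM Lab.x Lab.u Lab.g m := by
      refine supp_ind (DC (CL m) ∘ₗ mpE (labS n m) ∘ₗ mkE ∘ₗ mp (Tz z)) _ (fun L hL => ?_) hV
      rw [LinearMap.comp_apply, LinearMap.comp_apply, LinearMap.comp_apply, mp_single]
      show DC (CL m) (mpE (labS n m) (word (L.map (Tz z)))) ∈ _
      rw [mpE_word]
      exact chain_labels hm hN hn hlam z hL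
    have h5 := Submodule.smul_mem _ ((-1 : ℤ) ^ (m + 2)) h4
    rw [← map_smul] at h1
    obtain ⟨P, Q, hP, hQ, hPQ⟩ := MM_mem.1 h5
    rw [hPQ] at h1
    exact detect x_inj u_inj (by simp) (by simp) (by simp) hm hP hQ h1

end

end Pool.Agent.KS6_98.Orb
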