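import Pool.Agent.KS6_98.Orb.Defs

/-!
# Class sizes along chains of saturated sets
-/

set_option autoImplicit false

namespace Pool.Agent.KS6_98.Orb

open Finset

/-- the successive differences of a list, starting from `N` -/
def gp : ℕ → List ℕ → Multiset ℕ
  | _, [] => 0
  | N, q :: l => (N - q) ::ₘ gp q l

section

variable {n : ℕ}

open Classical in
/-- the class of `a` -/
noncomputable def blk (t : Setoid (Fin n)) (a : Fin n) : Finset (Fin n) :=
  Finset.univ.filter fun b => t a b

theorem mem_blk {t : Setoid (Fin n)} {a b : Fin n} : b ∈ blk t a ↔ t a b := by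
  simp [blk]

theorem blk_eq_iff {t : Setoid (Fin n)} {a b : Fin n} : blk t a = blk t b ↔ t a b := by
  constructor
  · intro h
    rw [← mem_blk, h, mem_blk]
  · intro h
    ext c
    rw [mem_blk, mem_blk]
    exact ⟨fun hc => t.trans' (t.symm' h) hc, fun hc => t.trans' h hc⟩

open Classical in
/-- the sizes of the classes meeting `U` -/
noncomputable def cz (t : Setoid (Fin n)) (U : Finset (Fin n)) : Multiset ℕ :=
  (U.image (blk t)).val.map Finset.card

theorem shape_eq (t : Setoid (Fin n)) : shape t = cz t univ := rfl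

/-- saturated sets -/
def Sat (t : Setoid (Fin n)) (U : Finset (Fin n)) : Prop := ∀ a ∈ U, ∀ b, t a b → b ∈ U

theorem cz_sum {t : Setoid (Fin n)} {U : Finset (Fin n)} (h : Sat t U) : (cz t U).sum = U.card := by
  classical
  have h1 : (cz t U).sum = ∑ B ∈ U.image (blk t), B.card := rfl
  rw [h1, Finset.card_eq_sum_card_image (blk t) U]
  refine Finset.sum_congr rfl fun B hB => ?_
  obtain ⟨a, ha, rfl⟩ := Finset.mem_image.1 hB
  congr 1
  ext b
  rw [mem_blk, Finset.mem_filter, blk_eq_iff]
  exact ⟨fun hb => ⟨h a ha b hb, t.symm' hb⟩, fun hb => t.symm' hb.2⟩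

theorem cz_split {t : Setoid (Fin n)} {U T : Finset (Fin n)} (hT : Sat t T) (hTU : T ⊆ U) :
    cz t U = cz t (U \ T) + cz t T := by
  classical
  have hd : Disjoint ((U \ T).image (blk t)) (T.image (blk t)) := by
    rw [Finset.disjoint_left]
    intro B hB hB'
    obtain ⟨a, ha, rfl⟩ := Finset.mem_image.1 hB
    obtain ⟨b, hb, hab⟩ := Finset.mem_image.1 hB'
    rw [blk_eq_iff] at hab
    exact (Finset.mem_sdiff.1 ha).2 (hT b hb a hab)
  have hU : U.image (blk t) = ((U \ T).image (blk t)).disjUnion (T.image (blk t)) hd := by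
    rw [Finset.disjUnion_eq_union, ← Finset.image_union, Finset.sdiff_union_of_subset hTU]
  show (U.image (blk t)).val.map Finset.card = ((U \ T).image (blk t)).val.map Finset.card +
    (T.image (blk t)).val.map Finset.card
  rw [hU, Finset.disjUnion_val, Multiset.map_add]

theorem cz_card_pos {t : Setoid (Fin n)} {U : Finset (Fin n)} (h : U.Nonempty) :
    1 ≤ Multiset.card (cz t U) := by
  classical
  obtain ⟨a, ha⟩ := h
  have : blk t a ∈ U.image (blk t) := Finset.mem_image_of_mem _ ha
  show 1 ≤ Multiset.card ((U.image (blk t)).val.map Finset.card)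
  rw [Multiset.card_map]
  exact Finset.card_pos.2 ⟨_, this⟩

theorem sat_sdiff {t : Setoid (Fin n)} {U T : Finset (Fin n)} (hU : Sat t U) (hT : Sat t T) :
    Sat t (U \ T) := by
  intro a ha b hab
  rw [Finset.mem_sdiff] at ha ⊢
  exact ⟨hU a ha.1 b hab, fun hb => ha.2 (hT b hb a (t.symm' hab))⟩

theorem cz_one {t : Setoid (Fin n)} {U : Finset (Fin n)} (hU : Sat t U)
    (h : Multiset.card (cz t U) = 1) : cz t U = {U.card} := by
  obtain ⟨k, hk⟩ := Multiset.card_eq_one.1 h
  have := cz_sum hU
  rw [hk, Multiset.sum_singleton] at this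
  rw [hk, this]

theorem cz_ge {t : Setoid (Fin n)} (TL : List (Finset (Fin n))) :
    ∀ U : Finset (Fin n), (U :: TL).Pairwise (fun A B => B ⊂ A) →
      (∀ T ∈ U :: TL, Sat t T ∧ T.Nonempty) → TL.length + 1 ≤ Multiset.card (cz t U) := by
  induction TL with
  | nil => exact fun U _ h => cz_card_pos (h U List.mem_cons_self).2
  | cons T TL ih =>
    intro U hp h
    rw [List.pairwise_cons] at hp
    have hTU : T ⊂ U := hp.1 T List.mem_cons_self
    have hT := h T (List.mem_cons_of_mem _ List.mem_cons_self)
    have h1 := ih T hp.2 fun S hS => h S (List.mem_cons_of_mem _ hS)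
    have h2 := cz_card_pos (t := t) (Finset.sdiff_nonempty.2 hTU.2)
    rw [cz_split hT.1 hTU.1, Multiset.card_add, List.length_cons]
    omega

theorem cz_eq {t : Setoid (Fin n)} (TL : List (Finset (Fin n))) :
    ∀ U : Finset (Fin n), (U :: TL).Pairwise (fun A B => B ⊂ A) →
      (∀ T ∈ U :: TL, Sat t T ∧ T.Nonempty) → Multiset.card (cz t U) = TL.length + 1 →
        cz t U = gp U.card (TL.map Finset.card ++ [0]) := by
  induction TL with
  | nil =>
    intro U _ h hc
    rw [cz_one (h U List.mem_cons_self).1 hc]
    rfl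
  | cons T TL ih =>
    intro U hp h hc
    rw [List.pairwise_cons] at hp
    have hTU : T ⊂ U := hp.1 T List.mem_cons_self
    have hT := h T (List.mem_cons_of_mem _ List.mem_cons_self)
    have hU := h U List.mem_cons_self
    have h1 := cz_ge TL T hp.2 fun S hS => h S (List.mem_cons_of_mem _ hS)
    have h2 := cz_card_pos (t := t) (Finset.sdiff_nonempty.2 hTU.2)
    have hs := cz_split (t := t) hT.1 hTU.1
    rw [hs, Multiset.card_add, List.length_cons] at hc
    rw [hs, cz_one (sat_sdiff hU.1 hT.1) (by omega),
      ih T hp.2 (fun S hS => h S (List.mem_cons_of_mem _ hS)) (by omega),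
      Finset.card_sdiff_of_subset hTU.1]
    rfl

/-- upper bound for the number of classes of a kernel -/
theorem card_cz_ker (F : Fin n → ℕ) (N : ℕ) (hF : ∀ a, F a ≤ N) :
    Multiset.card (cz (Setoid.ker F) univ) ≤ N + 1 := by
  classical
  show Multiset.card ((univ.image (blk (Setoid.ker F))).val.map Finset.card) ≤ N + 1
  rw [Multiset.card_map]
  have h1 : univ.image (blk (Setoid.ker F)) =
      (univ.image F).image fun y => univ.filter fun b => F b = y := by
    rw [Finset.image_image]
    refine Finset.image_congr fun a _ => ?_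
    ext b
    rw [mem_blk]
    simp only [Function.comp_apply, Finset.mem_filter, Finset.mem_univ, true_and, Setoid.ker_def]
    exact eq_comm
  have h2 : univ.image F ⊆ Finset.range (N + 1) := by
    intro y hy
    obtain ⟨a, _, rfl⟩ := Finset.mem_image.1 hy
    rw [Finset.mem_range]
    have := hF a
    omega
  calc (univ.image (blk (Setoid.ker F))).card ≤ (univ.image F).card := by
        rw [h1]; exact Finset.card_image_le
    _ ≤ (Finset.range (N + 1)).card := Finset.card_le_card h2
    _ = N + 1 := Finset.card_range _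

open Classical in
/-- A chain of sets is saturated for the kernel of the counting function. -/
theorem chain_sat (TL : List (Finset (Fin n))) (hp : TL.Pairwise (fun A B => B ⊂ A)) :
    ∀ T ∈ TL, Sat (Setoid.ker fun a : Fin n => TL.countP fun S => a ∈ S) T := by
  intro T hT a ha b hab
  by_contra hb
  rw [Setoid.ker_def] at hab
  have key : ∀ L : List (Finset (Fin n)), (∀ S ∈ L, b ∈ S → a ∈ S) →
      L.countP (fun S => b ∈ S) ≤ L.countP (fun S => a ∈ S) := by
    intro L hL
    exact List.countP_mono_left fun S hS hbS => by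
      have := hL S hS (by simpa using hbS)
      simpa using this
  have hcomp : ∀ S ∈ TL, b ∈ S → a ∈ S := by
    intro S hS hbS
    -- comparable
    by_cases hST : S = T
    · subst hST; exact ha
    · have : Std.Symm fun A B : Finset (Fin n) => A ⊆ B ∨ B ⊆ A := ⟨fun _ _ h => h.symm⟩
      have h1 := List.Pairwise.forall_of_forall (R := fun A B : Finset (Fin n) => A ⊆ B ∨ B ⊆ A)
        (fun x _ => Or.inl (Finset.Subset.refl x))
        (List.Pairwise.imp (fun {A B} h => Or.inr h.1) hp) hS hT
      rcases h1 with h1 | h1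
      · exact absurd (h1 hbS) hb
      · exact h1 ha
  obtain ⟨L1, L2, rfl⟩ := List.append_of_mem hT
  have k1 := key L1 fun S hS => hcomp S (by simp [hS])
  have k2 := key L2 fun S hS => hcomp S (by simp [hS])
  rw [List.countP_append, List.countP_append, List.countP_cons, List.countP_cons] at hab
  simp only [decide_true, ha, hb, decide_false, if_true] at hab
  simp at hab
  omega

end

end Pool.Agent.KS6_98.Orb
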