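import Pool.Agent.KS6_98.Orb.Words

/-!
# Iterated suspensions and iterated contractions
-/

set_option autoImplicit false

namespace Pool.Agent.KS6_98.Orb

section

variable {α β : Type*}

/-- iterated suspension -/
noncomputable def St : List (α × α) → (EE α →ₗ[ℤ] EE α)
  | [] => LinearMap.id
  | p :: L => (ins p.1 - ins p.2) ∘ₗ St L

theorem St_cons (p : α × α) (L : List (α × α)) (y : EE α) :
    St (p :: L) y = ins p.1 (St L y) - ins p.2 (St L y) := rfl

theorem bdE_St (L : List (α × α)) (y : EE α) :
    bdE (St L y) = (-1 : ℤ) ^ L.length • St L (bdE y) := by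
  induction L with
  | nil => simp [St]
  | cons p L ih =>
    rw [St_cons, map_sub, bdE_ins, bdE_ins, ih, St_cons, List.length_cons, pow_succ, map_smul,
      map_smul, mul_neg_one, neg_smul, smul_sub]
    abel

theorem mpE_St (g : α → β) (L : List (α × α)) (y : EE α) :
    mpE g (St L y) = St (L.map (Prod.map g g)) (mpE g y) := by
  induction L with
  | nil => rfl
  | cons p L ih =>
    rw [St_cons, List.map_cons, St_cons, map_sub, mpE_ins, mpE_ins, ih]
    rfl

theorem St_word_mem (L : List (α × α)) (l : List α) :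
    St L (word l) ∈ Submodule.span ℤ {x | ∃ cs : List α,
      List.Forall₂ (fun c (p : α × α) => c = p.1 ∨ c = p.2) cs L ∧ x = word (cs ++ l)} := by
  induction L with
  | nil => exact Submodule.subset_span ⟨[], List.Forall₂.nil, rfl⟩
  | cons p L ih =>
    rw [St_cons]
    have hle : ∀ c, (c = p.1 ∨ c = p.2) → Submodule.span ℤ {x | ∃ cs : List α,
      List.Forall₂ (fun c (p : α × α) => c = p.1 ∨ c = p.2) cs L ∧ x = word (cs ++ l)} ≤
        (Submodule.span ℤ {x | ∃ cs : List α, List.Forall₂ (fun c (p : α × α) => c = p.1 ∨ c = p.2)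
          cs (p :: L) ∧ x = word (cs ++ l)}).comap (ins c) := by
      intro c hc
      refine Submodule.span_le.2 ?_
      rintro x ⟨cs, h1, rfl⟩
      refine Submodule.subset_span ⟨c :: cs, List.Forall₂.cons hc h1, ?_⟩
      rw [List.cons_append, word_cons]
    exact Submodule.sub_mem _ (hle _ (Or.inl rfl) ih) (hle _ (Or.inr rfl) ih)

variable [DecidableEq α]

/-- iterated contraction -/
noncomputable def DC : List α → (EE α →ₗ[ℤ] EE α)
  | [] => LinearMap.id
  | c :: L => DC L ∘ₗ Dl c

theorem DC_cons (c : α) (L : List α) (y : EE α) : DC (c :: L) y = DC L (Dl c y) := rfl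

theorem DC_bdE (L : List α) (y : EE α) :
    DC L (bdE y) = (-1 : ℤ) ^ L.length • bdE (DC L y) := by
  induction L generalizing y with
  | nil => simp [DC]
  | cons c L ih =>
    rw [DC_cons, Dl_bdE, map_neg, ih, DC_cons, List.length_cons, pow_succ, mul_neg_one, neg_smul]

theorem Dl_St {a : α} {L : List (α × α)} (h : ∀ p ∈ L, p.1 ≠ a ∧ p.2 ≠ a) {y : EE α}
    (hy : Dl a y = 0) : Dl a (St L y) = 0 := by
  induction L with
  | nil => exact hy
  | cons p L ih =>
    have ih' := ih fun q hq => h q (List.mem_cons_of_mem _ hq)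
    have hp := h p List.mem_cons_self
    rw [St_cons, map_sub, Dl_ins_ne hp.1, Dl_ins_ne hp.2, ih', map_zero, map_zero, neg_zero,
      sub_zero]

theorem DC_St {L : List (α × α)} (h1 : (L.map Prod.fst).Nodup)
    (h2 : ∀ p ∈ L, ∀ q ∈ L, p.2 ≠ q.1) {y : EE α} (hy : ∀ p ∈ L, Dl p.1 y = 0) :
    DC (L.map Prod.fst) (St L y) = y := by
  induction L with
  | nil => rfl
  | cons p L ih =>
    rw [List.map_cons, List.nodup_cons] at h1
    have hp : Dl p.1 (St L y) = 0 := by
      refine Dl_St (fun q hq => ⟨fun e => h1.1 ?_, ?_⟩) (hy p List.mem_cons_self)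
      · rw [← e]
        exact List.mem_map_of_mem hq
      · exact h2 q (List.mem_cons_of_mem _ hq) p List.mem_cons_self
    rw [List.map_cons, DC_cons, St_cons, map_sub, Dl_ins_self,
      Dl_ins_ne (h2 p List.mem_cons_self p List.mem_cons_self), hp, map_zero, map_zero, neg_zero,
      sub_zero, sub_zero]
    exact ih h1.2 (fun q hq r hr => h2 q (List.mem_cons_of_mem _ hq) r (List.mem_cons_of_mem _ hr))
      (fun q hq => hy q (List.mem_cons_of_mem _ hq))

theorem DC_zero {L : List α} {c : α} (hc : c ∈ L) {y : EE α} (hy : Dl c y = 0) : DC L y = 0 := by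
  induction L generalizing y with
  | nil => simp at hc
  | cons a L ih =>
    rw [DC_cons]
    rcases List.mem_cons.1 hc with rfl | hc
    · rw [hy, map_zero]
    · apply ih hc
      rw [Dl_Dl, hy, map_zero, neg_zero]

theorem DC_append {L r : List α} (h : (L ++ r).Nodup) : DC L (word (L ++ r)) = word r := by
  induction L with
  | nil => rfl
  | cons a L ih =>
    rw [List.cons_append, List.nodup_cons] at h
    rw [List.cons_append, word_cons, DC_cons, Dl_ins_self, Dl_word_of_not_mem h.1, map_zero,
      sub_zero, ih h.2]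

theorem DC_perm_mem {l L r : List α} (h : l.Perm (L ++ r)) {M : Submodule ℤ (EE α)}
    (hr : word r ∈ M) : DC L (word l) ∈ M := by
  by_cases hl : l.Nodup
  · have h2 : (L ++ r).Nodup := h.nodup_iff.1 hl
    rcases word_perm h with h | h
    · rw [h, DC_append h2]
      exact hr
    · rw [h, map_neg, DC_append h2]
      exact M.neg_mem hr
  · rw [word_dup hl, map_zero]
    exact M.zero_mem

end

end Pool.Agent.KS6_98.Orb
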