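import Pool.Agent.KS6_98.Orb.Words

/-!
# The cycle, the chain whose boundary is `m` times the cycle, and the detection of torsion
-/

set_option autoImplicit false

namespace Pool.Agent.KS6_98.Orb

open Finset

section Cyc

variable {α : Type*} [DecidableEq α] {X U : ℕ → α} {g : α} {m : ℕ}

/-- the word of all letters `X 0, ..., X m` -/
noncomputable def Wd (X : ℕ → α) (m : ℕ) : EE α := word ((List.range (m + 1)).map X)

/-- the cycle `z` -/
noncomputable def zc (X : ℕ → α) (m : ℕ) : EE α := bdE (Wd X m)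

/-- the chain `y` -/
noncomputable def yc (X U : ℕ → α) (g : α) (m : ℕ) : EE α :=
  ∑ j ∈ range (m + 1), (ins g (ins (U j) (Dl (X j) (zc X m))) +
    ins (U j) (ins (X j) (Dl (X j) (zc X m))))

theorem sum_dl (hX : Function.Injective X) {M : Type*} [AddCommGroup M] (f : ℕ → M) {i : ℕ}
    (hi : i ∈ range (m + 1)) : ∑ j ∈ range (m + 1), dl (X j) (X i) • f j = f i := by
  rw [Finset.sum_eq_single i]
  · rw [dl_self, one_smul]
  · intro j _ hj
    rw [dl_ne (fun h => hj (hX h).symm), zero_smul]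
  · intro h
    exact absurd hi h

theorem sumD_word (hX : Function.Injective X) {l : List α}
    (h : ∀ a ∈ l, ∃ i ∈ range (m + 1), a = X i) :
    ∑ j ∈ range (m + 1), Dl (X j) (word l) = bdE (word l) := by
  induction l with
  | nil => simp [Dl, bdE, Dc_nil]
  | cons a l ih =>
    obtain ⟨i, hi, rfl⟩ := h a List.mem_cons_self
    have e1 : ∀ j, Dl (X j) (ins (X i) (word l)) =
        dl (X j) (X i) • word l - ins (X i) (Dl (X j) (word l)) := fun j => Dc_ins _ _ _
    rw [word_cons, bdE_ins, ← ih fun b hb => h b (List.mem_cons_of_mem _ hb), map_sum]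
    simp only [e1]
    rw [Finset.sum_sub_distrib, sum_dl hX (fun _ => word l) hi]

theorem sumN_word (hX : Function.Injective X) {l : List α}
    (h : ∀ a ∈ l, ∃ i ∈ range (m + 1), a = X i) :
    ∑ j ∈ range (m + 1), ins (X j) (Dl (X j) (word l)) = l.length • word l := by
  induction l with
  | nil => simp [Dl, Dc_nil]
  | cons a l ih =>
    obtain ⟨i, hi, rfl⟩ := h a List.mem_cons_self
    have ih' := ih fun b hb => h b (List.mem_cons_of_mem _ hb)
    have e1 : ∀ j, ins (X j) (Dl (X j) (ins (X i) (word l))) =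
        dl (X j) (X i) • ins (X j) (word l) + ins (X i) (ins (X j) (Dl (X j) (word l))) := by
      intro j
      rw [Dl, Dc_ins, map_sub, map_smul, ins_ins (X j) (X i), sub_neg_eq_add]
    rw [word_cons]
    simp only [e1]
    rw [Finset.sum_add_distrib, sum_dl hX (fun j => ins (X j) (word l)) hi, ← map_sum, ih',
      List.length_cons, map_nsmul, add_smul, one_smul, add_comm]

omit [DecidableEq α] in
theorem Xs_mem {a : α} (h : a ∈ (List.range (m + 1)).map X) : ∃ i ∈ range (m + 1), a = X i := by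
  obtain ⟨i, hi, rfl⟩ := List.mem_map.1 h
  exact ⟨i, by simpa using hi, rfl⟩

omit [DecidableEq α] in
theorem X_mem_Xs {i : ℕ} (h : i ∈ range (m + 1)) : X i ∈ (List.range (m + 1)).map X :=
  List.mem_map.2 ⟨i, by simpa using h, rfl⟩

omit [DecidableEq α] in
theorem Xs_nodup (hX : Function.Injective X) : ((List.range (m + 1)).map X).Nodup :=
  List.Nodup.map hX List.nodup_range

omit [DecidableEq α] in
theorem ins_Wd {i : ℕ} (h : i ∈ range (m + 1)) : ins (X i) (Wd X m) = 0 :=
  ins_word_mem (X_mem_Xs h)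

omit [DecidableEq α] in
theorem ins_zc {i : ℕ} (h : i ∈ range (m + 1)) : ins (X i) (zc X m) = Wd X m := by
  have := bdE_ins (X i) (Wd X m)
  rw [ins_Wd h, map_zero] at this
  exact (sub_eq_zero.1 this.symm).symm

omit [DecidableEq α] in
theorem bdE_zc : bdE (zc X m) = 0 := bdE_bdE _

theorem sumD_zc (hX : Function.Injective X) : ∑ j ∈ range (m + 1), Dl (X j) (zc X m) = 0 := by
  have h : ∀ j, Dl (X j) (zc X m) = -bdE (Dl (X j) (Wd X m)) := fun j => Dl_bdE _ _
  simp only [h]
  rw [Finset.sum_neg_distrib, ← map_sum, Wd, sumD_word hX fun a ha => Xs_mem ha, bdE_bdE, neg_zero]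

theorem sumN_zc (hX : Function.Injective X) :
    ∑ j ∈ range (m + 1), ins (X j) (Dl (X j) (zc X m)) = m • zc X m := by
  have h : ∀ j, ins (X j) (Dl (X j) (zc X m)) =
      bdE (ins (X j) (Dl (X j) (Wd X m))) - Dl (X j) (Wd X m) := by
    intro j
    rw [bdE_ins, bdE_Dl, map_neg]
    show _ = _ - -ins (X j) (Dl (X j) (zc X m)) - _
    abel
  simp only [h]
  rw [Finset.sum_sub_distrib, ← map_sum]
  show bdE (∑ x ∈ range (m + 1), ins (X x) (Dl (X x) (word ((List.range (m + 1)).map X)))) -
    ∑ x ∈ range (m + 1), Dl (X x) (word ((List.range (m + 1)).map X)) = _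
  rw [sumN_word hX fun a ha => Xs_mem ha, sumD_word hX fun a ha => Xs_mem ha, map_nsmul,
    List.length_map, List.length_range, add_smul, one_smul, add_sub_cancel_right]
  rfl

theorem bdE_yc (hX : Function.Injective X) : bdE (yc X U g m) = m • zc X m := by
  have h : ∀ j, bdE (ins g (ins (U j) (Dl (X j) (zc X m))) +
      ins (U j) (ins (X j) (Dl (X j) (zc X m)))) =
      ins (X j) (Dl (X j) (zc X m)) - ins g (Dl (X j) (zc X m)) := by
    intro j
    have h0 : bdE (Dl (X j) (zc X m)) = 0 := by rw [bdE_Dl, bdE_zc, map_zero, neg_zero]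
    rw [map_add, bdE_ins, bdE_ins, bdE_ins, bdE_ins, h0]
    simp only [map_zero, sub_zero]
    abel
  rw [yc, map_sum]
  simp only [h]
  rw [Finset.sum_sub_distrib, ← map_sum, sumD_zc hX, map_zero, sub_zero, sumN_zc hX]

/-! ### Detection -/

/-- The pieces. -/
noncomputable def Mj (X : ℕ → α) (m j : ℕ) : Submodule ℤ (EE α) :=
  Submodule.span ℤ {y | ∃ w ∈ range (m + 1), w ≠ j ∧ ∃ l : List α,
    (X j :: X w :: l).Perm ((List.range (m + 1)).map X) ∧ y = word l}

theorem Mj_Dl (hX : Function.Injective X) {j : ℕ} {a : α}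
    (ha : ∀ i ∈ range (m + 1), a = X i → i = j) {y : EE α} (hy : y ∈ Mj X m j) : Dl a y = 0 := by
  have : Mj X m j ≤ LinearMap.ker (Dl a) := by
    refine Submodule.span_le.2 ?_
    rintro y ⟨w, hw, hwj, l, hl, rfl⟩
    refine Dl_word_of_not_mem fun hal => ?_
    have hnd := hl.nodup_iff.2 (Xs_nodup hX)
    obtain ⟨i, hi, rfl⟩ := Xs_mem (hl.subset (List.mem_cons_of_mem _ (List.mem_cons_of_mem _ hal)))
    have := ha i hi rfl
    subst this
    rw [List.nodup_cons] at hnd
    exact hnd.1 (List.mem_cons_of_mem _ hal)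
  exact this hy

theorem Mj_ins (hX : Function.Injective X) {j w0 : ℕ}
    (hw0 : w0 ∈ range (m + 1)) (hne : w0 ≠ j) {y : EE α}
    (hy : y ∈ Mj X m j) : ∃ t : ℤ, ins (X w0) y = t • Dl (X j) (Wd X m) := by
  have : Mj X m j ≤ (Submodule.span ℤ {Dl (X j) (Wd X m)}).comap (ins (X w0)) := by
    refine Submodule.span_le.2 ?_
    rintro y ⟨w, hw, hwj, l, hl, rfl⟩
    show ins (X w0) (word l) ∈ Submodule.span ℤ {Dl (X j) (Wd X m)}
    have hnd := hl.nodup_iff.2 (Xs_nodup hX)
    by_cases hww : w = w0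
    · subst hww
      rw [List.nodup_cons] at hnd
      have h1 : Dl (X j) (word (X j :: X w :: l)) = ins (X w) (word l) := by
        rw [word_cons, Dl_ins_self, Dl_word_of_not_mem hnd.1, map_zero, sub_zero, word_cons]
      rcases word_perm hl with h2 | h2
      · rw [← h1, h2]
        exact Submodule.mem_span_singleton_self _
      · rw [← h1, h2, map_neg]
        exact Submodule.neg_mem _ (Submodule.mem_span_singleton_self _)
    · have hmem : X w0 ∈ l := by
        have := hl.symm.subset (X_mem_Xs (X := X) hw0)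
        rcases List.mem_cons.1 this with h | h
        · exact absurd (hX h) hne
        · rcases List.mem_cons.1 h with h | h
          · exact absurd (hX h).symm hww
          · exact h
      rw [ins_word_mem hmem]
      exact Submodule.zero_mem _
  obtain ⟨t, ht⟩ := Submodule.mem_span_singleton.1 (this hy)
  exact ⟨t, ht.symm⟩

theorem detect (hX : Function.Injective X) (hU : Function.Injective U)
    (hXU : ∀ i j, X i ≠ U j) (hXg : ∀ i, X i ≠ g) (hUg : ∀ i, U i ≠ g) (hm : 1 ≤ m)
    {P Q : ℕ → EE α} (hP : ∀ j ∈ range (m + 1), P j ∈ Mj X m j)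
    (hQ : ∀ j ∈ range (m + 1), Q j ∈ Mj X m j) {k : ℤ}
    (h : k • zc X m = bdE (∑ j ∈ range (m + 1), ins (U j) (ins (X j) (P j) + ins g (Q j)))) :
    (m : ℤ) ∣ k := by
  classical
  -- contractions which vanish
  have uM : ∀ j, ∀ i, ∀ y ∈ Mj X m j, Dl (U i) y = 0 := fun j i y hy =>
    Mj_Dl hX (fun i' _ e => absurd e.symm (hXU i' i)) hy
  have gM : ∀ j, ∀ y ∈ Mj X m j, Dl g y = 0 := fun j y hy =>
    Mj_Dl hX (fun i' _ e => absurd e.symm (hXg i')) hy
  have xM : ∀ j, ∀ y ∈ Mj X m j, Dl (X j) y = 0 := fun j y hy =>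
    Mj_Dl hX (fun i' _ e => (hX e).symm) hy
  have uz : ∀ i, Dl (U i) (zc X m) = 0 := by
    intro i
    rw [zc, Dl_bdE, Wd, Dl_word_of_not_mem, map_zero, neg_zero]
    intro hh
    obtain ⟨i', _, e⟩ := Xs_mem hh
    exact hXU i' i e.symm
  have gz : Dl g (zc X m) = 0 := by
    rw [zc, Dl_bdE, Wd, Dl_word_of_not_mem, map_zero, neg_zero]
    intro hh
    obtain ⟨i', _, e⟩ := Xs_mem hh
    exact hXg i' e.symm
  set C : ℕ → EE α := fun j => ins (X j) (P j) + ins g (Q j) with hC
  have uC : ∀ j ∈ range (m + 1), ∀ i, Dl (U i) (C j) = 0 := by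
    intro j hj i
    rw [hC]
    simp only
    rw [map_add, Dl_ins_ne (hXU j i), Dl_ins_ne (Ne.symm (hUg i)), uM j i _ (hP j hj),
      uM j i _ (hQ j hj), map_zero, map_zero, neg_zero, add_zero]
  have hbd : bdE (∑ j ∈ range (m + 1), ins (U j) (C j)) =
      ∑ j ∈ range (m + 1), (C j - ins (U j) (bdE (C j))) := by
    rw [map_sum]
    exact Finset.sum_congr rfl fun j _ => bdE_ins _ _
  have h' : k • zc X m = ∑ j ∈ range (m + 1), (C j - ins (U j) (bdE (C j))) := by
    rw [← hbd]; exact h
  -- each `C j` is a cycle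
  have hCc : ∀ i ∈ range (m + 1), bdE (C i) = 0 := by
    intro i hi
    have e := congrArg (Dl (U i)) h'
    rw [map_smul, uz, smul_zero, map_sum] at e
    have e2 : ∀ j ∈ range (m + 1), Dl (U i) (C j - ins (U j) (bdE (C j))) =
        if j = i then -bdE (C i) else 0 := by
      intro j hj
      have e3 : Dl (U i) (bdE (C j)) = 0 := by rw [Dl_bdE, uC j hj, map_zero, neg_zero]
      rw [map_sub, uC j hj, zero_sub]
      split_ifs with hji
      · subst hji
        rw [Dl_ins_self, e3, map_zero, sub_zero]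
      · rw [Dl_ins_ne fun e => hji (hU e), e3, map_zero, neg_zero, neg_zero]
    rw [Finset.sum_congr rfl e2, Finset.sum_ite_eq' _ _ _, if_pos hi] at e
    exact neg_eq_zero.1 e.symm
  -- cycles
  have hPQ : ∀ j ∈ range (m + 1), bdE (P j) = 0 ∧ bdE (Q j) = 0 ∧ Q j = -P j := by
    intro j hj
    have e := hCc j hj
    rw [hC] at e
    simp only at e
    rw [map_add, bdE_ins, bdE_ins] at e
    have eg := congrArg (Dl g) e
    rw [map_add, map_sub, map_sub, gM j _ (hP j hj), gM j _ (hQ j hj), Dl_ins_ne (hXg j),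
      Dl_ins_self, Dl_bdE, Dl_bdE, gM j _ (hP j hj), gM j _ (hQ j hj)] at eg
    simp only [map_zero, neg_zero, sub_zero, zero_sub, zero_add, neg_eq_zero] at eg
    have ex := congrArg (Dl (X j)) e
    rw [eg, map_zero, sub_zero, map_add, map_sub, xM j _ (hP j hj), xM j _ (hQ j hj),
      Dl_ins_self, Dl_bdE, xM j _ (hP j hj)] at ex
    simp only [map_zero, neg_zero, sub_zero, zero_sub, add_zero, neg_eq_zero] at ex
    refine ⟨ex, eg, ?_⟩
    rw [ex, eg, map_zero, map_zero, sub_zero, sub_zero] at e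
    exact eq_neg_of_add_eq_zero_right e
  have h2 : k • zc X m = ∑ j ∈ range (m + 1), (ins (X j) (P j) - ins g (P j)) := by
    rw [h']
    refine Finset.sum_congr rfl fun j hj => ?_
    rw [hCc j hj, map_zero, sub_zero, hC]
    simp only
    rw [(hPQ j hj).2.2, map_neg, sub_eq_add_neg]
  have h3 : ∑ j ∈ range (m + 1), P j = 0 := by
    have e := congrArg (Dl g) h2
    rw [map_smul, gz, smul_zero, map_sum] at e
    have e2 : ∀ j ∈ range (m + 1), Dl g (ins (X j) (P j) - ins g (P j)) = -P j := by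
      intro j hj
      rw [map_sub, Dl_ins_ne (hXg j), Dl_ins_self, gM j _ (hP j hj), map_zero, map_zero]
      simp
    rw [Finset.sum_congr rfl e2, Finset.sum_neg_distrib] at e
    exact neg_eq_zero.1 e.symm
  have h4 : k • zc X m = ∑ j ∈ range (m + 1), ins (X j) (P j) := by
    rw [h2, Finset.sum_sub_distrib, ← map_sum (ins g), h3, map_zero, sub_zero]
  -- the coefficients
  have h5 : ∀ j ∈ range (m + 1), ∃ t : ℤ, P j = t • Dl (X j) (zc X m) := by
    intro j hj
    obtain ⟨w0, hw0, hne⟩ : ∃ w0 ∈ range (m + 1), w0 ≠ j := by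
      by_cases hj0 : j = 0
      · exact ⟨1, by rw [mem_range]; omega, by omega⟩
      · exact ⟨0, by rw [mem_range]; omega, fun e => hj0 e.symm⟩
    obtain ⟨s, hs⟩ := Mj_ins hX hw0 hne (hP j hj)
    refine ⟨-s, ?_⟩
    have e := bdE_ins (X w0) (P j)
    rw [(hPQ j hj).1, map_zero, sub_zero, hs, map_smul, bdE_Dl] at e
    rw [← e, neg_smul, smul_neg]
    rfl
  choose! t ht using h5
  have h6 : ∀ i ∈ range (m + 1), ∀ j ∈ range (m + 1), i ≠ j → t i = t j := by
    intro i hi j hj hij
    have key : ∀ l, ins (X i) (ins (X j) (Dl (X l) (zc X m))) =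
        (dl (X l) (X j) - dl (X l) (X i)) • Wd X m := by
      intro l
      have e0 : ins (X i) (ins (X j) (zc X m)) = 0 := by rw [ins_zc hj, ins_Wd hi]
      have e1 := congrArg (Dl (X l)) e0
      rw [Dl, Dc_ins, Dc_ins, map_zero, ins_zc hj, map_sub, map_smul, ins_zc hi] at e1
      rw [sub_smul]
      have e2 : ins (X i) (ins (X j) (Dc (dl (X l)) (zc X m))) =
        dl (X l) (X j) • Wd X m - dl (X l) (X i) • Wd X m +
        (dl (X l) (X i) • Wd X m - (dl (X l) (X j) • Wd X m -
          ins (X i) (ins (X j) ((Dc (dl (X l))) (zc X m))))) := by abel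
      rw [e1, add_zero] at e2
      exact e2
    have e3 : ∑ l ∈ range (m + 1), t l • (dl (X l) (X j) - dl (X l) (X i)) • Wd X m = 0 := by
      have e4 := congrArg (fun y => ins (X i) (ins (X j) y)) h3
      simp only [map_zero, map_sum] at e4
      rw [← e4]
      refine Finset.sum_congr rfl fun l hl => ?_
      rw [ht l hl, map_smul, map_smul, key]
    have e5 : ∀ l, t l • (dl (X l) (X j) - dl (X l) (X i)) • Wd X m =
        dl (X l) (X j) • (t l • Wd X m) - dl (X l) (X i) • (t l • Wd X m) := by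
      intro l
      rw [sub_smul, smul_sub, smul_comm, smul_comm (t l) (dl (X l) (X i))]
    simp only [e5] at e3
    rw [Finset.sum_sub_distrib, sum_dl hX (fun l => t l • Wd X m) hj,
      sum_dl hX (fun l => t l • Wd X m) hi, ← sub_smul] at e3
    obtain ⟨φ, hφ⟩ := exists_dual (Xs_nodup (m := m) hX)
    have e6 := congrArg φ e3
    rw [map_smul, map_zero] at e6
    have e7 : φ (Wd X m) = 1 := hφ
    rw [e7, smul_eq_mul, mul_one] at e6
    omega
  have h7 : ∀ i ∈ range (m + 1), t i = t 0 := by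
    intro i hi
    by_cases h0 : i = 0
    · rw [h0]
    · exact h6 i hi 0 (by simp) h0
  have h8 : k • zc X m = (t 0 * m) • zc X m := by
    rw [h4, mul_smul]
    have e := sumN_zc (m := m) hX
    rw [← natCast_zsmul] at e
    rw [← e, Finset.smul_sum]
    refine Finset.sum_congr rfl fun j hj => ?_
    rw [ht j hj, map_smul, h7 j hj]
  have h9 := congrArg (ins (X 0)) h8
  rw [map_smul, map_smul, ins_zc (by simp)] at h9
  obtain ⟨φ, hφ⟩ := exists_dual (Xs_nodup (m := m) hX)
  have e6 := congrArg φ h9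
  have e7 : φ (Wd X m) = 1 := hφ
  rw [map_smul, map_smul, e7, smul_eq_mul, mul_one, smul_eq_mul, mul_one] at e6
  exact ⟨t 0, by rw [e6, mul_comm]⟩

end Cyc

end Pool.Agent.KS6_98.Orb
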