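import Pool.Agent.KS6_98.Orb.Num2
import Pool.Agent.KS6_98.Orb.Tors
import Pool.Agent.KS6_98.Orb.Susp

/-!
# Labels
-/

set_option autoImplicit false

namespace Pool.Agent.KS6_98.Orb

open Finset

/-! ### The submodule of the possible chains -/

section MM

variable {α : Type*} [DecidableEq α]

/-- The submodule of the possible chains. -/
noncomputable def MM (X U : ℕ → α) (g : α) (m : ℕ) : Submodule ℤ (EE α) where
  carrier := {C | ∃ P Q : ℕ → EE α, (∀ j ∈ range (m + 1), P j ∈ Mj X m j) ∧
    (∀ j ∈ range (m + 1), Q j ∈ Mj X m j) ∧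
      C = ∑ j ∈ range (m + 1), ins (U j) (ins (X j) (P j) + ins g (Q j))}
  add_mem' := by
    rintro a b ⟨P, Q, h1, h2, rfl⟩ ⟨P', Q', h1', h2', rfl⟩
    refine ⟨P + P', Q + Q', fun j hj => Submodule.add_mem _ (h1 j hj) (h1' j hj),
      fun j hj => Submodule.add_mem _ (h2 j hj) (h2' j hj), ?_⟩
    rw [← Finset.sum_add_distrib]
    refine Finset.sum_congr rfl fun j _ => ?_
    simp only [Pi.add_apply, map_add]
    abel
  zero_mem' := ⟨0, 0, fun j _ => Submodule.zero_mem _, fun j _ => Submodule.zero_mem _, by simp⟩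
  smul_mem' := by
    rintro c a ⟨P, Q, h1, h2, rfl⟩
    refine ⟨c • P, c • Q, fun j hj => Submodule.smul_mem _ _ (h1 j hj),
      fun j hj => Submodule.smul_mem _ _ (h2 j hj), ?_⟩
    rw [Finset.smul_sum]
    refine Finset.sum_congr rfl fun j _ => ?_
    simp only [Pi.smul_apply, map_add, map_smul, smul_add]

variable {X U : ℕ → α} {g : α} {m : ℕ}

omit [DecidableEq α] in
theorem MM_mem {C : EE α} : C ∈ MM X U g m ↔ ∃ P Q : ℕ → EE α,
    (∀ j ∈ range (m + 1), P j ∈ Mj X m j) ∧ (∀ j ∈ range (m + 1), Q j ∈ Mj X m j) ∧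
      C = ∑ j ∈ range (m + 1), ins (U j) (ins (X j) (P j) + ins g (Q j)) := Iff.rfl

omit [DecidableEq α] in
theorem MM_mem1 {j : ℕ} (hj : j ∈ range (m + 1)) {y : EE α} (hy : y ∈ Mj X m j) :
    ins (U j) (ins (X j) y) ∈ MM X U g m := by
  refine ⟨fun i => if i = j then y else 0, 0, ?_, fun j _ => Submodule.zero_mem _, ?_⟩
  · intro i _
    dsimp only
    split_ifs with h
    · rwa [h]
    · exact Submodule.zero_mem _
  · rw [Finset.sum_eq_single j]
    · simp
    · intro i _ hij
      simp [hij]
    · exact fun h => absurd hj h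

omit [DecidableEq α] in
theorem MM_mem2 {j : ℕ} (hj : j ∈ range (m + 1)) {y : EE α} (hy : y ∈ Mj X m j) :
    ins (U j) (ins g y) ∈ MM X U g m := by
  refine ⟨0, fun i => if i = j then y else 0, fun j _ => Submodule.zero_mem _, ?_, ?_⟩
  · intro i _
    dsimp only
    split_ifs with h
    · rwa [h]
    · exact Submodule.zero_mem _
  · rw [Finset.sum_eq_single j]
    · simp
    · intro i _ hij
      simp [hij]
    · exact fun h => absurd hj h

/-- the list of the letters `X i` with `i` different from `w` and `j` -/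
noncomputable def l0 (X : ℕ → α) (m w j : ℕ) : List α :=
  (((range (m + 1)).erase w).erase j).toList.map X

omit [DecidableEq α] in
theorem l0_perm {w j : ℕ} (hw : w ∈ range (m + 1)) (hj : j ∈ range (m + 1)) (hwj : w ≠ j) :
    (X j :: X w :: l0 X m w j).Perm ((List.range (m + 1)).map X) := by
  have h1 : X j :: X w :: l0 X m w j =
      (j :: w :: (((range (m + 1)).erase w).erase j).toList).map X := rfl
  rw [h1]
  refine List.Perm.map X ?_
  have h2 : (range (m + 1)).toList.Perm (List.range (m + 1)) := by
    refine (List.perm_ext_iff_of_nodup (Finset.nodup_toList _) List.nodup_range).2 fun a => ?_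
    simp
  refine List.Perm.trans ?_ h2
  refine (List.perm_ext_iff_of_nodup ?_ (Finset.nodup_toList _)).2 fun a => ?_
  · simp [List.nodup_cons, Finset.nodup_toList, Ne.symm hwj]
  · simp only [List.mem_cons, Finset.mem_toList, Finset.mem_erase, Finset.mem_range] at *
    constructor
    · rintro (rfl | rfl | h)
      · exact hj
      · exact hw
      · exact h.2.2
    · intro h
      tauto

omit [DecidableEq α] in
theorem l0_mem {w j : ℕ} (hw : w ∈ range (m + 1)) (hj : j ∈ range (m + 1)) (hwj : w ≠ j) :
    word (l0 X m w j) ∈ Mj X m j :=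
  Submodule.subset_span ⟨w, hw, hwj, _, l0_perm hw hj hwj, rfl⟩

end MM

/-! ### Labels -/

/-- labels -/
inductive Lab
  | x (i : ℕ)
  | u (i : ℕ)
  | g
  | c (i : ℕ)
  deriving DecidableEq

/-- the label of a number -/
def labN (m p : ℕ) : Lab :=
  if p = 8 * m + 14 then Lab.c (m + 1) else if 8 * m + 8 < p then Lab.g else
    if p % 8 = 0 then Lab.c (p / 8 - 1) else if p % 8 = 4 then Lab.x (p / 8) else Lab.u (p / 8)

theorem labN_top (m : ℕ) : labN m (8 * m + 14) = Lab.c (m + 1) := by simp [labN]

theorem labN_g {m r : ℕ} (h : 0 < r ∧ r < 6) : labN m (8 * m + 8 + r) = Lab.g := by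
  rw [labN, if_neg (by omega), if_pos (by omega)]

theorem labN_c {m i : ℕ} (h : i ≤ m) : labN m (8 * (i + 1)) = Lab.c i := by
  rw [labN, if_neg (by omega), if_neg (by omega), if_pos (by omega)]
  congr 1
  omega

theorem labN_x {m i : ℕ} (h : i < m + 1) : labN m (8 * i + 4) = Lab.x i := by
  rw [labN, if_neg (by omega), if_neg (by omega), if_neg (by omega), if_pos (by omega)]
  congr 1
  omega

theorem labN_u {m i r : ℕ} (h : i < m + 1) (hr : r = 2 ∨ r = 6) :
    labN m (8 * i + r) = Lab.u i := by
  rw [labN, if_neg (by omega), if_neg (by omega), if_neg (by omega), if_neg (by omega)]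
  congr 1
  omega

/-- the list of the contracted labels -/
def CL (m : ℕ) : List Lab := (List.range (m + 2)).map Lab.c

theorem x_inj : Function.Injective Lab.x := fun _ _ h => Lab.x.inj h

theorem u_inj : Function.Injective Lab.u := fun _ _ h => Lab.u.inj h

/-- The key statement on labels. -/
theorem labels_mem {m N : ℕ} (hN : 9 ≤ N) {l : List ℕ} (h1 : l.Pairwise (· > ·))
    (h2 : ∀ q ∈ l, 0 < q ∧ q < 8 * m + 14 + N) (h3 : ∀ i ≤ m, 8 * (i + 1) ∈ l)
    (h4 : 8 * m + 14 ∈ l) (h5 : gp (8 * m + 14 + N) (l ++ [0]) = lamM m N) :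
    DC (CL m) (word (l.map (labN m))) ∈ MM Lab.x Lab.u Lab.g m := by
  obtain ⟨δ, γ, β, hF, hδ, hγ, hβ⟩ := exists_Fl m N (l ++ [0]) (by
    rw [List.pairwise_append]
    refine ⟨h1, List.pairwise_singleton _ _, fun a ha b hb => ?_⟩
    rw [List.mem_singleton] at hb
    subst hb
    exact (h2 a ha).1) (fun q hq => by
      rcases List.mem_append.1 hq with h | h
      · exact (h2 q h).2
      · rw [List.mem_singleton] at h
        omega) (fun i hi => by
          rw [List.mem_append]
          rcases i with _ | i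
          · right; simp
          · left; exact h3 i (by omega)) (List.mem_append_left _ h4)
  rw [hF] at h5
  obtain ⟨rfl, w, hw, j, hj, hwj, hbw, hbo, hbj⟩ := classify hN hδ hγ hβ h5
  -- the multiset of labels
  have hmul := Fl_mul hF
  have hx : ∑ i ∈ ((range (m + 1)).erase w).erase j,
      ((((β i).map (8 * i + ·)).map (labN m) : List Lab) : Multiset Lab) =
        (l0 Lab.x m w j : Multiset Lab) := by
    have : ∀ i ∈ ((range (m + 1)).erase w).erase j,
        ((((β i).map (8 * i + ·)).map (labN m) : List Lab) : Multiset Lab) = {Lab.x i} := by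
      intro i hi
      rw [Finset.mem_erase, Finset.mem_erase] at hi
      rw [hbo i hi.2.2 hi.2.1 hi.1, List.map_cons, List.map_nil, List.map_cons, List.map_nil,
        labN_x (Finset.mem_range.1 hi.2.2)]
      rfl
    rw [Finset.sum_congr rfl this, l0, ← Multiset.map_coe, Finset.coe_toList, Finset.sum]
    rw [← Multiset.sum_map_singleton ((((range (m + 1)).erase w).erase j).val.map Lab.x),
      Multiset.map_map]
    rfl
  have hms : Multiset.map (labN m)
      (∑ i ∈ range (m + 1), ((β i).map (8 * i + ·) : Multiset ℕ)) =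
      ∑ i ∈ range (m + 1), Multiset.map (labN m) ((β i).map (8 * i + ·) : Multiset ℕ) :=
    map_sum (Multiset.mapAddMonoidHom (labN m)) _ _
  have hmap : ((l.map (labN m) : List Lab) : Multiset Lab) = (CL m : Multiset Lab) +
      (((γ.map (8 * m + 8 + ·)).map (labN m) : Multiset Lab) +
        ((((β j).map (8 * j + ·)).map (labN m) : List Lab) + (l0 Lab.x m w j : Multiset Lab))) := by
    rw [← Multiset.map_coe, hmul, Multiset.map_cons, Multiset.map_cons, Multiset.map_add,
      Multiset.map_add, Multiset.map_coe, labN_top, show 8 * m + 8 = 8 * (m + 1) by ring,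
      labN_c le_rfl, hms]
    simp only [Multiset.map_coe]
    rw [sum_two _ hw hj hwj, hx, hbw, Multiset.map_map]
    have e1 : (Multiset.range m).map (labN m ∘ fun i => 8 * (i + 1)) =
        (Multiset.range m).map Lab.c := by
      refine Multiset.map_congr rfl fun i hi => ?_
      rw [Multiset.mem_range] at hi
      exact labN_c hi.le
    have e2 : (CL m : Multiset Lab) = Lab.c (m + 1) ::ₘ Lab.c m ::ₘ
        (Multiset.range m).map Lab.c := by
      rw [CL, ← Multiset.map_coe, Multiset.coe_range, Multiset.range_succ, Multiset.map_cons,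
        Multiset.range_succ, Multiset.map_cons]
    rw [e1, e2]
    ext a
    simp only [Multiset.count_add, Multiset.count_cons, List.map_nil, Multiset.coe_nil,
      Multiset.count_zero]
    ring
  have hl0 := l0_mem (X := Lab.x) hw hj hwj
  have hjr : j < m + 1 := Finset.mem_range.1 hj
  rcases hbj with ⟨hb, hg⟩ | ⟨hb, hg⟩
  · rw [hg, List.map_nil, List.map_nil, Multiset.coe_nil, zero_add] at hmap
    rcases hb with hb | hb | hb
    · refine DC_perm_mem (r := [Lab.x j, Lab.u j] ++ l0 Lab.x m w j) ?_ ?_
      · rw [← Multiset.coe_eq_coe, hmap, hb]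
        simp only [List.map_cons, List.map_nil, labN_x hjr, labN_u hjr (Or.inl rfl)]
        rfl
      · refine word_perm_mem (List.Perm.swap _ _ _) ?_
        rw [word_cons, word_cons]
        exact MM_mem1 hj hl0
    · refine DC_perm_mem (r := [Lab.u j, Lab.u j] ++ l0 Lab.x m w j) ?_ ?_
      · rw [← Multiset.coe_eq_coe, hmap, hb]
        simp only [List.map_cons, List.map_nil, labN_u hjr (Or.inr rfl),
          labN_u hjr (Or.inl rfl)]
        rfl
      · rw [word_dup]
        · exact Submodule.zero_mem _
        · simp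
    · refine DC_perm_mem (r := [Lab.u j, Lab.x j] ++ l0 Lab.x m w j) ?_ ?_
      · rw [← Multiset.coe_eq_coe, hmap, hb]
        simp only [List.map_cons, List.map_nil, labN_x hjr, labN_u hjr (Or.inr rfl)]
        rfl
      · rw [List.cons_append, List.cons_append, List.nil_append, word_cons, word_cons]
        exact MM_mem1 hj hl0
  · have hgl : (((γ.map (8 * m + 8 + ·)).map (labN m) : List Lab) : Multiset Lab) = {Lab.g} := by
      rcases hg with hg | hg <;> rw [hg, List.map_cons, List.map_nil, List.map_cons, List.map_nil,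
        labN_g (by omega)] <;> rfl
    have hbl : ((((β j).map (8 * j + ·)).map (labN m) : List Lab) : Multiset Lab) =
        {Lab.u j} := by
      rcases hb with hb | hb
      · rw [hb, List.map_cons, List.map_nil, List.map_cons, List.map_nil, labN_u hjr (Or.inl rfl)]
        rfl
      · rw [hb, List.map_cons, List.map_nil, List.map_cons, List.map_nil, labN_u hjr (Or.inr rfl)]
        rfl
    rw [hgl, hbl] at hmap
    refine DC_perm_mem (r := [Lab.g, Lab.u j] ++ l0 Lab.x m w j) ?_ ?_
    · rw [← Multiset.coe_eq_coe, hmap]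
      rfl
    · refine word_perm_mem (List.Perm.swap _ _ _) ?_
      rw [word_cons, word_cons]
      exact MM_mem2 hj hl0

end Pool.Agent.KS6_98.Orb
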