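import Pool.Agent.KS6_98.Orb.Words
import Pool.Agent.KS6_98.Orb.Defs

/-!
# Subdivision, and passage to the simplicial chain complex
-/

set_option autoImplicit false

namespace Pool.Agent.KS6_98.Orb

open Finsupp

section General

variable {α β : Type*}

/-- the boundary map on combinations of lists -/
noncomputable def bdF : FL α →ₗ[ℤ] FL α := con fun _ => 1

theorem bdF_single (l : List α) : bdF (single l (1 : ℤ)) = conL (fun _ => 1) l := by
  rw [bdF, con_single, one_smul]

theorem bdF_consL (a : α) (x : FL α) : bdF (consL a x) = x - consL a (bdF x) := by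
  rw [bdF, con_consL, one_smul]

theorem bdF_bdF (x : FL α) : bdF (bdF x) = 0 := con_self _ _

theorem bdF_mp (g : α → β) (x : FL α) : bdF (mp g x) = mp g (bdF x) := con_mp _ _ _

theorem bdE_mkE (x : FL α) : bdE (mkE x) = mkE (bdF x) := rfl

/-- linear extension -/
theorem supp_ind {N : Type*} [AddCommGroup N] {S : Set (List α)} (F : FL α →ₗ[ℤ] N)
    (M : Submodule ℤ N) (h : ∀ l ∈ S, F (single l 1) ∈ M) {x : FL α}
    (hx : x ∈ supported ℤ ℤ S) : F x ∈ M := by
  have : supported ℤ ℤ S ≤ M.comap F := by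
    rw [Finsupp.supported_eq_span_single]
    refine Submodule.span_le.2 ?_
    rintro y ⟨l, hl, rfl⟩
    exact h l hl
  exact this hx

theorem supp_congr {N : Type*} [AddCommGroup N] {S : Set (List α)} (F G : FL α →ₗ[ℤ] N)
    (h : ∀ l ∈ S, F (single l 1) = G (single l 1)) {x : FL α}
    (hx : x ∈ supported ℤ ℤ S) : F x = G x := by
  have := supp_ind (F - G) ⊥ (fun l hl => by
    rw [Submodule.mem_bot, LinearMap.sub_apply, h l hl, sub_self]) hx
  rw [Submodule.mem_bot, LinearMap.sub_apply, sub_eq_zero] at this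
  exact this

theorem conL_supp (f : α → ℤ) (l : List α) :
    conL f l ∈ supported ℤ ℤ {l' : List α | l'.Sublist l ∧ l'.length + 1 = l.length} := by
  induction l with
  | nil => exact Submodule.zero_mem _
  | cons a l ih =>
    rw [conL]
    refine Submodule.sub_mem _ (Submodule.smul_mem _ _ (Finsupp.single_mem_supported _ _
      ⟨List.sublist_cons_self a l, by simp⟩)) ?_
    refine supp_ind (consL a) _ ?_ ih
    rintro l' ⟨h1, h2⟩
    rw [consL_single]
    exact Finsupp.single_mem_supported _ _ ⟨h1.cons_cons a, by simp [h2]⟩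

theorem conL_eq (l : List α) :
    conL (fun _ => 1) l =
      ∑ i ∈ Finset.range l.length, (-1 : ℤ) ^ i • single (l.eraseIdx i) (1 : ℤ) := by
  induction l with
  | nil => simp [conL]
  | cons a l ih =>
    rw [conL, List.length_cons, Finset.sum_range_succ', ih, map_sum]
    simp only [List.eraseIdx_cons_succ, List.eraseIdx_cons_zero, pow_zero, one_smul, pow_succ]
    rw [add_comm, sub_eq_add_neg]
    congr 1
    rw [← Finset.sum_neg_distrib]
    refine Finset.sum_congr rfl fun i _ => ?_
    rw [map_smul, consL_single]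
    simp

end General

/-! ### Subdivision -/

section Sd

variable {κ σ ν : Type*} (b : List κ → σ)

/-- the subdivision of chains with `k` vertices -/
noncomputable def SdF : ℕ → (FL κ →ₗ[ℤ] FL σ)
  | 0 => (Finsupp.lsingle []) ∘ₗ (Finsupp.lapply [])
  | k + 1 => Finsupp.linearCombination ℤ fun l => consL (b l) (SdF k (conL (fun _ => 1) l))

theorem SdF_zero (x : FL κ) : SdF b 0 x = single [] (x []) := rfl

theorem SdF_succ (k : ℕ) (l : List κ) (c : ℤ) :
    SdF b (k + 1) (single l c) = c • consL (b l) (SdF b k (bdF (single l 1))) := by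
  rw [bdF_single, SdF, Finsupp.linearCombination_single]

theorem bdF_SdF (k : ℕ) (x : FL κ) : bdF (SdF b (k + 1) x) = SdF b k (bdF x) := by
  induction k generalizing x with
  | zero =>
    refine supp_congr (S := Set.univ) (bdF ∘ₗ SdF b 1) (SdF b 0 ∘ₗ bdF) ?_
      (by rw [Finsupp.supported_univ]; trivial)
    intro l _
    have h0 : ∀ c : ℤ, bdF (single [] c : FL σ) = 0 := by
      intro c
      simp [bdF, conL]
    rw [LinearMap.comp_apply, LinearMap.comp_apply, SdF_succ, one_smul, bdF_consL, SdF_zero,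
      h0, map_zero, sub_zero]
  | succ k ih =>
    refine supp_congr (S := Set.univ) (bdF ∘ₗ SdF b (k + 1 + 1)) (SdF b (k + 1) ∘ₗ bdF) ?_
      (by rw [Finsupp.supported_univ]; trivial)
    intro l _
    rw [LinearMap.comp_apply, LinearMap.comp_apply, SdF_succ, one_smul, bdF_consL, ih, bdF_bdF,
      map_zero, map_zero, sub_zero]

theorem SdF_rel (hb : ∀ l l' : List κ, l.Perm l' → b l = b l') (k : ℕ) :
    Rel κ ≤ LinearMap.ker (SdF b k) := by
  induction k with
  | zero =>
    refine Submodule.span_le.2 fun x hx => ?_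
    show SdF b 0 x = 0
    rw [SdF_zero]
    rcases gen_cases hx with ⟨l₁, l₂, rfl, hp, hn⟩ | ⟨l, rfl, hn⟩
    · have h2 : l₂ ≠ [] := by
        rintro rfl
        exact hn hp.eq_nil
      rw [Finsupp.add_apply, Finsupp.single_eq_of_ne (Ne.symm hn),
        Finsupp.single_eq_of_ne (Ne.symm h2), add_zero, Finsupp.single_zero]
    · rw [Finsupp.single_eq_of_ne (Ne.symm hn), Finsupp.single_zero]
  | succ k ih =>
    refine Submodule.span_le.2 fun x hx => ?_
    show SdF b (k + 1) x = 0
    have h1 : bdF x ∈ Rel κ := con_rel _ (Submodule.subset_span hx)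
    have h2 : SdF b k (bdF x) = 0 := ih h1
    rcases gen_cases hx with ⟨l₁, l₂, rfl, hp, hn⟩ | ⟨l, rfl, hn⟩
    · rw [map_add, SdF_succ, SdF_succ, one_smul, one_smul, ← hb l₁ l₂ hp, ← map_add, ← map_add,
        ← map_add, h2, map_zero]
    · rw [SdF_succ, one_smul, h2, map_zero]

/-- subdivision on the quotient -/
noncomputable def SdE (hb : ∀ l l' : List κ, l.Perm l' → b l = b l') (k : ℕ) :
    EE κ →ₗ[ℤ] FL σ := (Rel κ).liftQ (SdF b k) (SdF_rel b hb k)

theorem SdE_mkE (hb : ∀ l l' : List κ, l.Perm l' → b l = b l') (k : ℕ) (x : FL κ) :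
    SdE b hb k (mkE x) = SdF b k x := rfl

theorem bdF_SdE (hb : ∀ l l' : List κ, l.Perm l' → b l = b l') (k : ℕ) (x : EE κ) :
    bdF (SdE b hb (k + 1) x) = SdE b hb k (bdE x) := by
  obtain ⟨y, rfl⟩ := mkE_surj x
  rw [SdE_mkE, bdE_mkE, SdE_mkE, bdF_SdF]

/-- the support of the subdivision of a list -/
theorem SdF_supp {R : σ → σ → Prop} {A : σ → Prop} (k : ℕ) (l : List κ) (hk : l.length = k)
    (hR : ∀ l₁ l₂ : List κ, l₁.Sublist l₂ → l₂.Sublist l → l₁ ≠ [] → l₁.length < l₂.length →
      R (b l₂) (b l₁)) (hA : ∀ l₁ : List κ, l₁.Sublist l → l₁ ≠ [] → A (b l₁)) :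
    SdF b k (single l 1) ∈ supported ℤ ℤ {L : List σ | L.length = k ∧ L.Pairwise R ∧
      ∀ s ∈ L, A s ∧ ∃ l₁ : List κ, l₁.Sublist l ∧ l₁ ≠ [] ∧ s = b l₁} := by
  induction k generalizing l with
  | zero =>
    rw [SdF_zero]
    exact Finsupp.single_mem_supported _ _ ⟨rfl, List.Pairwise.nil, by simp⟩
  | succ k ih =>
    rw [SdF_succ, one_smul]
    have h1 : SdF b k (bdF (single l 1)) ∈ supported ℤ ℤ {L : List σ | L.length = k ∧
        L.Pairwise R ∧ ∀ s ∈ L, A s ∧ ∃ l₁ : List κ, l₁.Sublist l ∧ l₁ ≠ [] ∧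
          l₁.length < l.length ∧ s = b l₁} := by
      rw [bdF_single]
      refine supp_ind (SdF b k) _ ?_ (conL_supp _ l)
      rintro l' ⟨hs, hl⟩
      have h2 := ih l' (by omega) (fun l₁ l₂ h1 h2 => hR l₁ l₂ h1 (h2.trans hs))
        (fun l₁ h1 => hA l₁ (h1.trans hs))
      refine supported_mono ?_ h2
      rintro L ⟨h3, h4, h5⟩
      refine ⟨h3, h4, fun s hs' => ⟨(h5 s hs').1, ?_⟩⟩
      obtain ⟨l₁, h6, h7, h8⟩ := (h5 s hs').2
      have h9 := h6.length_le
      exact ⟨l₁, h6.trans hs, h7, by omega, h8⟩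
    have hl0 : l ≠ [] := by
      rintro rfl
      simp at hk
    refine supp_ind (consL (b l)) _ ?_ h1
    rintro L ⟨h3, h4, h5⟩
    rw [consL_single]
    refine Finsupp.single_mem_supported _ _ ⟨by simp [h3], ?_, ?_⟩
    · rw [List.pairwise_cons]
      refine ⟨fun s hs => ?_, h4⟩
      obtain ⟨l₁, h6, h7, h8, rfl⟩ := (h5 s hs).2
      exact hR l₁ l h6 (List.Sublist.refl l) h7 h8
    · intro s hs
      rcases List.mem_cons.1 hs with rfl | hs
      · exact ⟨hA l (List.Sublist.refl l) hl0, l, List.Sublist.refl l, hl0, rfl⟩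
      · obtain ⟨l₁, h6, h7, h8, h9⟩ := (h5 s hs).2
        exact ⟨(h5 s hs).1, l₁, h6, h7, h9⟩

/-- a left inverse of the subdivision -/
theorem mp_SdF (τ : σ → ν) (S : κ → ν) (k : ℕ) (l : List κ) (hk : l.length = k)
    (h : ∀ l₁ : List κ, l₁.Sublist l → l₁ ≠ [] → ∃ a ∈ l₁, τ (b l₁) = S a) :
    mkE (mp τ (SdF b k (single l 1))) = word (l.map S) := by
  induction k generalizing l with
  | zero =>
    have : l = [] := List.length_eq_zero_iff.1 hk
    subst this
    rw [SdF_zero, mp_single, word]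
    simp
  | succ k ih =>
    have hl0 : l ≠ [] := by
      rintro rfl
      simp at hk
    rw [SdF_succ, one_smul, mp_consL, ← ins_mkE]
    have h1 : mkE (mp τ (SdF b k (bdF (single l 1)))) = mkE (mp S (bdF (single l 1))) := by
      rw [bdF_single]
      refine supp_congr (mkE ∘ₗ mp τ ∘ₗ SdF b k) (mkE ∘ₗ mp S) ?_ (conL_supp _ l)
      rintro l' ⟨hs, hl⟩
      rw [LinearMap.comp_apply, LinearMap.comp_apply, LinearMap.comp_apply,
        ih l' (by omega) (fun l₁ h1 => h l₁ (h1.trans hs)), mp_single]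
      rfl
    rw [h1, ← bdF_mp, mp_single, ← bdE_mkE]
    have h2 := bdE_ins (τ (b l)) (word (l.map S))
    obtain ⟨a, ha, hta⟩ := h l (List.Sublist.refl l) hl0
    rw [ins_word_mem (by rw [hta]; exact List.mem_map_of_mem ha), map_zero] at h2
    exact (sub_eq_zero.1 h2.symm).symm

end Sd

/-! ### The simplicial chain complex -/

section Simplicial

variable {Q : Type} [PartialOrder Q] (p : Q → Prop)

/-- the lists of length `k` which are simplices -/
def Wl (k : ℕ) : Set (List Q) := {L | L.length = k ∧ L.Pairwise (· < ·) ∧ ∀ s ∈ L, p s}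

/-- chains as combinations of lists -/
noncomputable def io (k : ℕ) : (Simplex {q : Q // p q} k →₀ ℤ) →ₗ[ℤ] FL Q :=
  Finsupp.lmapDomain ℤ ℤ fun c => c.1.map Subtype.val

theorem io_single (k : ℕ) (c : Simplex {q : Q // p q} k) (z : ℤ) :
    io p k (single c z) = single (c.1.map Subtype.val) z := by
  simp [io]

theorem io_inj (k : ℕ) : Function.Injective (io p k) := by
  refine Finsupp.mapDomain_injective ?_
  intro c c' h
  exact Subtype.ext (List.map_injective_iff.2 Subtype.val_injective h)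

theorem io_supp (k : ℕ) (x : Simplex {q : Q // p q} k →₀ ℤ) :
    io p k x ∈ supported ℤ ℤ (Wl p k) := by
  induction x using Finsupp.induction_linear with
  | zero => rw [map_zero]; exact Submodule.zero_mem _
  | add x y hx hy => rw [map_add]; exact Submodule.add_mem _ hx hy
  | single c z =>
    rw [io_single]
    refine Finsupp.single_mem_supported _ _ ⟨by rw [List.length_map, c.2.1], ?_, ?_⟩
    · rw [List.pairwise_map]
      exact c.2.2
    · intro s hs
      obtain ⟨q, _, rfl⟩ := List.mem_map.1 hs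
      exact q.2

theorem exists_io (k : ℕ) {x : FL Q} (hx : x ∈ supported ℤ ℤ (Wl p k)) :
    ∃ c, io p k c = x := by
  have : x ∈ LinearMap.range (io p k) := by
    refine supp_ind LinearMap.id (LinearMap.range (io p k)) ?_ hx
    rintro L ⟨h1, h2, h3⟩
    lift L to List {q : Q // p q} using h3
    rw [List.pairwise_map] at h2
    rw [List.length_map] at h1
    refine ⟨single ⟨L, h1, h2⟩ 1, ?_⟩
    rw [io_single]
    rfl
  exact this

theorem bdF_io (k : ℕ) (x : Simplex {q : Q // p q} (k + 1) →₀ ℤ) :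
    bdF (io p (k + 1) x) = io p k (boundary _ k x) := by
  induction x using Finsupp.induction_linear with
  | zero => simp
  | add x y hx hy => simp [hx, hy]
  | single c z =>
    have h1 : (single c z : Simplex {q : Q // p q} (k + 1) →₀ ℤ) = z • single c 1 := by simp
    rw [h1, map_smul, map_smul, map_smul, map_smul, io_single, bdF_single, conL_eq, boundary,
      linearCombination_single, one_smul, map_sum, List.length_map, c.2.1,
      ← Fin.sum_univ_eq_sum_range (fun i => (-1 : ℤ) ^ i •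
        single ((c.1.map Subtype.val).eraseIdx i) (1 : ℤ))]
    congr 1
    refine Finset.sum_congr rfl fun i _ => ?_
    rw [map_smul, io_single]
    congr 2
    rw [face, List.eraseIdx_map]

/-- two successive boundary maps compose to zero -/
theorem boundary_boundary_sub (k : ℕ) (x : Simplex {q : Q // p q} (k + 2) →₀ ℤ) :
    boundary _ k (boundary _ (k + 1) x) = 0 := by
  apply io_inj p k
  rw [← bdF_io, ← bdF_io, bdF_bdF, map_zero]

/-- From chains of lists to an element of given order. -/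
theorem exists_order {i m : ℕ} {Z W : FL Q} (hZ : Z ∈ supported ℤ ℤ (Wl p (i + 1)))
    (hW : W ∈ supported ℤ ℤ (Wl p (i + 2))) (h1 : bdF Z = 0) (h2 : bdF W = (m : ℤ) • Z)
    (h3 : ∀ (k : ℤ) (V : FL Q), V ∈ supported ℤ ℤ (Wl p (i + 2)) → bdF V = k • Z →
      (m : ℤ) ∣ k) : ElementOfOrder {q : Q // p q} i m := by
  obtain ⟨z, hz⟩ := exists_io p (i + 1) hZ
  obtain ⟨w, hw⟩ := exists_io p (i + 2) hW
  refine ⟨z, ?_, fun k => ⟨?_, ?_⟩⟩
  · apply io_inj p i
    rw [← bdF_io, hz, h1, map_zero]
  · rintro ⟨v, hv⟩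
    exact h3 k (io p (i + 2) v) (io_supp p (i + 2) v) (by rw [bdF_io, hv, map_smul, hz])
  · rintro ⟨c, rfl⟩
    refine ⟨c • w, ?_⟩
    apply io_inj p (i + 1)
    rw [← bdF_io, map_smul, map_smul, hw, h2, map_smul, hz, smul_smul, mul_comm]

end Simplicial

end Pool.Agent.KS6_98.Orb
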