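import Pool.Agent.KS6_98.Orb.Sets
import Pool.Agent.KS6_98.Orb.Labels
import Pool.Agent.KS6_98.Orb.Sd

/-!
# Membership in the lattice, and the labels of the chains of the lattice
-/

set_option autoImplicit false

namespace Pool.Agent.KS6_98.Orb

open Finset

section

variable {n : ℕ}

open Classical in
theorem mem_blocks {s : Setoid (Fin n)} {C : Finset (Fin n)} :
    C ∈ blocks s ↔ ∃ a, C = univ.filter fun b => s a b := by
  unfold blocks
  rw [mem_image]
  constructor
  · rintro ⟨a, _, rfl⟩; exact ⟨a, rfl⟩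
  · rintro ⟨a, rfl⟩; exact ⟨a, mem_univ _, rfl⟩

open Classical in
theorem blocks_comap (e : Equiv.Perm (Fin n)) (s : Setoid (Fin n)) :
    blocks (s.comap e) = (blocks s).map
      ⟨Finset.map e.symm.toEmbedding, Finset.map_injective _⟩ := by
  ext C
  rw [mem_map]
  constructor
  · intro hC
    obtain ⟨a, rfl⟩ := mem_blocks.1 hC
    refine ⟨_, mem_blocks.2 ⟨e a, rfl⟩, ?_⟩
    ext b
    simp only [Function.Embedding.coeFn_mk, mem_map, mem_filter, mem_univ, true_and]
    constructor
    · rintro ⟨c, hc, rfl⟩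
      show s (e a) (e (e.symm c))
      rwa [Equiv.apply_symm_apply]
    · intro hb
      exact ⟨e b, hb, by simp⟩
  · rintro ⟨D, hD, rfl⟩
    obtain ⟨a, rfl⟩ := mem_blocks.1 hD
    refine mem_blocks.2 ⟨e.symm a, ?_⟩
    ext b
    simp only [Function.Embedding.coeFn_mk, mem_map, mem_filter, mem_univ, true_and]
    constructor
    · rintro ⟨c, hc, rfl⟩
      show s (e (e.symm a)) (e (e.symm c))
      rwa [Equiv.apply_symm_apply, Equiv.apply_symm_apply]
    · intro hb
      have hb' : s (e (e.symm a)) (e b) := hb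
      rw [Equiv.apply_symm_apply] at hb'
      exact ⟨e b, hb', by simp⟩

theorem shape_comap (e : Equiv.Perm (Fin n)) (s : Setoid (Fin n)) :
    shape (s.comap e) = shape s := by
  unfold shape
  rw [blocks_comap, Finset.map_val, Multiset.map_map]
  refine Multiset.map_congr rfl fun C _ => ?_
  simp

/-- If all parts are at least `2`, every element of a partition of this shape is related to
another element. -/
theorem exists_ne {lam : n.Partition} (h2 : ∀ k ∈ lam.parts, 2 ≤ k) {s : Setoid (Fin n)}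
    (hs : shape s = lam.parts) (u : Fin n) : ∃ w, w ≠ u ∧ s u w := by
  classical
  have hC : (univ.filter fun b => s u b) ∈ blocks s := mem_blocks.2 ⟨u, rfl⟩
  have hcard : 2 ≤ (univ.filter fun b => s u b).card := by
    apply h2
    rw [← hs]
    exact Multiset.mem_map_of_mem _ hC
  obtain ⟨w, hw, hwu⟩ : ∃ w ∈ univ.filter (fun b => s u b), w ≠ u :=
    Finset.exists_mem_ne (by omega) u
  exact ⟨w, hwu, by simpa using hw⟩

/-- If all parts are at least `2`, every set partition above one of shape `lam` is a join of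
set partitions of shape `lam`. -/
theorem mem_PiLam_of_le {lam : n.Partition} (h2 : ∀ k ∈ lam.parts, 2 ≤ k)
    {s p : Setoid (Fin n)} (hs : shape s = lam.parts) (hsp : s ≤ p) : p ∈ PiLam lam := by
  classical
  refine ⟨{t | shape t = lam.parts ∧ t ≤ p}, fun t ht => ht.1, ?_⟩
  apply le_antisymm
  · intro u v huv
    by_cases huv' : u = v
    · subst huv'; exact Setoid.refl' _ _
    obtain ⟨w, hwu, hsuw⟩ := exists_ne h2 hs u
    have hpuw : p u w := hsp hsuw
    have hpwv : p w v := p.trans (p.symm hpuw) huv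
    refine (le_sSup (show (s.comap (Equiv.swap w v)) ∈ {t | shape t = lam.parts ∧ t ≤ p} from
      ⟨?_, ?_⟩)) ?_
    · rw [shape_comap, hs]
    · intro a b hab
      have hab' : s (Equiv.swap w v a) (Equiv.swap w v b) := hab
      have key : ∀ c, p c (Equiv.swap w v c) := by
        intro c
        by_cases h1 : c = w
        · subst h1; rw [Equiv.swap_apply_left]; exact hpwv
        · by_cases h3 : c = v
          · subst h3; rw [Equiv.swap_apply_right]; exact p.symm hpwv
          · rw [Equiv.swap_apply_of_ne_of_ne h1 h3]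
      exact p.trans (key a) (p.trans (hsp hab') (p.symm (key b)))
    · show s (Equiv.swap w v u) (Equiv.swap w v v)
      rw [Equiv.swap_apply_right, Equiv.swap_apply_of_ne_of_ne (Ne.symm hwu) huv']
      exact hsuw
  · exact sSup_le fun t ht => ht.2

theorem exists_below {lam : n.Partition} {s : Setoid (Fin n)} (hs : s ∈ PiLam lam)
    (hb : s ≠ ⊥) : ∃ t, shape t = lam.parts ∧ t ≤ s := by
  obtain ⟨T, hT, rfl⟩ := hs
  rcases T.eq_empty_or_nonempty with rfl | ⟨t, ht⟩
  · exact absurd sSup_empty hb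
  · exact ⟨t, hT t ht, le_sSup ht⟩

theorem lamM_ge {m N : ℕ} (hN : 9 ≤ N) : ∀ k ∈ lamM m N, 2 ≤ k := by
  intro k hk
  simp only [lamM, Multiset.mem_cons] at hk
  rcases hk with rfl | rfl | rfl | rfl | rfl | h
  · omega
  · omega
  · omega
  · omega
  · omega
  · rw [Multiset.eq_of_mem_replicate h]
    omega

theorem lamM_card {m N : ℕ} (hm : 1 ≤ m) : Multiset.card (lamM m N) = 2 * m + 4 := by
  simp only [lamM, Multiset.card_cons, Multiset.card_replicate]
  omega

/-- The partition. -/
def lamP (m N : ℕ) (hm : 1 ≤ m) (hN : 9 ≤ N) : (8 * m + 14 + N).Partition where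
  parts := lamM m N
  parts_pos := fun {i} hi => by
    have := lamM_ge hN i hi
    omega
  parts_sum := by
    simp only [lamM, Multiset.sum_cons, Multiset.sum_replicate, smul_eq_mul]
    omega

/-- the proper part -/
abbrev PrP {n : ℕ} (lam : n.Partition) (s : Setoid (Fin n)) : Prop :=
  s ∈ PiLam lam ∧ s ≠ ⊥ ∧ s ≠ ⊤

theorem GoodL.prp {m N : ℕ} (hN : 9 ≤ N) (hn : n = 8 * m + 14 + N) {lam : n.Partition}
    (hlam : lam.parts = lamM m N) {l : List Code} (h : GoodL m N l) (hl : l ≠ []) :
    PrP lam (bset (l.map (Ss n))) := by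
  obtain ⟨t, ht, htl⟩ := h.exists_shape hN hn
  have h2 : ∀ k ∈ lam.parts, 2 ≤ k := by
    rw [hlam]; exact lamM_ge hN
  refine ⟨mem_PiLam_of_le h2 (ht.trans hlam.symm) htl, ?_, h.ne_top hN hn hl⟩
  intro hbot
  obtain ⟨w, hw, hw'⟩ := exists_ne h2 (ht.trans hlam.symm) (⟨0, by omega⟩ : Fin n)
  have h3 := htl hw'
  rw [hbot] at h3
  exact hw (Eq.symm h3)

/-- the label of a set -/
def labS (n m : ℕ) (S : Finset (Fin n)) : Lab :=
  if (S.card = 8 * m + 14 ∨ (S.card % 8 = 0 ∧ S.card ≤ 8 * m + 8)) ∧ S ≠ Ss n (S.card, false)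
    then Lab.g else labN m S.card

theorem labN_eq_c {m p a : ℕ} (hp : 0 < p) (h : labN m p = Lab.c a) :
    (a ≤ m ∧ p = 8 * (a + 1)) ∨ (a = m + 1 ∧ p = 8 * m + 14) := by
  unfold labN at h
  split_ifs at h with h1 h2 h3 h4
  · have := Lab.c.inj h
    omega
  · have := Lab.c.inj h
    omega

theorem chain_labels {m N : ℕ} (hm : 1 ≤ m) (hN : 9 ≤ N) (hn : n = 8 * m + 14 + N)
    {lam : n.Partition} (hlam : lam.parts = lamM m N) (z : Fin n)
    {L : List (Setoid (Fin n))} (hL : L ∈ Wl (PrP lam) (2 * m + 3)) :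
    DC (CL m) (word ((L.map (Tz z)).map (labS n m))) ∈ MM Lab.x Lab.u Lab.g m := by
  obtain ⟨hlen, hpair, hP⟩ := hL
  by_cases hnd : ((L.map (Tz z)).map (labS n m)).Nodup
  swap
  · rw [word_dup hnd, map_zero]
    exact Submodule.zero_mem _
  by_cases hall : ∀ a < m + 2, Lab.c a ∈ (L.map (Tz z)).map (labS n m)
  swap
  · push Not at hall
    obtain ⟨a, ha, hca⟩ := hall
    have h0 : DC (CL m) (word ((L.map (Tz z)).map (labS n m))) = 0 :=
      DC_zero (c := Lab.c a) (List.mem_map.2 ⟨a, List.mem_range.2 ha, rfl⟩)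
        (Dl_word_of_not_mem hca)
    rw [h0]
    exact Submodule.zero_mem _
  -- the chain of sets
  set TL := L.map (Tz z) with hTL
  have hTnd : TL.Nodup := List.Nodup.of_map _ hnd
  have hTp : TL.Pairwise fun A B => B ⊂ A := by
    have h1 : TL.Pairwise fun A B => B ⊆ A := by
      rw [hTL, List.pairwise_map]
      exact List.Pairwise.imp (fun {a b} hab => Tz_anti hab.le) hpair
    exact List.Pairwise.imp₂ (fun a b h2 h3 => ⟨h2, fun h4 => h3 (h4.antisymm h2)⟩) h1 hTnd
  rcases L with _ | ⟨s0, L'⟩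
  · simp at hlen
  have hs0 := hP s0 List.mem_cons_self
  obtain ⟨t, ht, hts⟩ := exists_below hs0.1 hs0.2.1
  have hle : ∀ s ∈ s0 :: L', t ≤ s := by
    intro s hs
    rcases List.mem_cons.1 hs with rfl | hs
    · exact hts
    · exact hts.trans ((List.pairwise_cons.1 hpair).1 s hs).le
  have hTs : ∀ T ∈ TL, Sat t T ∧ T.Nonempty ∧ z ∉ T := by
    intro T hT
    obtain ⟨s, hs, rfl⟩ := List.mem_map.1 hT
    exact ⟨Tz_sat (hle s hs), Tz_nonempty (hP s hs).2.2, fun hz => (mem_Tz.1 hz) (s.refl' z)⟩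
  have hU : (univ :: TL).Pairwise fun A B => B ⊂ A := by
    rw [List.pairwise_cons]
    exact ⟨fun A hA => ⟨Finset.subset_univ _, fun hs => (hTs A hA).2.2 (hs (mem_univ z))⟩, hTp⟩
  have hUs : ∀ T ∈ univ :: TL, Sat t T ∧ T.Nonempty := by
    intro T hT
    rcases List.mem_cons.1 hT with rfl | hT
    · exact ⟨fun a _ b _ => Finset.mem_univ b, ⟨z, Finset.mem_univ _⟩⟩
    · exact ⟨(hTs T hT).1, (hTs T hT).2.1⟩
  have hTlen : TL.length = 2 * m + 3 := by rw [hTL, List.length_map, hlen]
  have hc : Multiset.card (cz t univ) = TL.length + 1 := by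
    rw [← shape_eq, ht, hlam, lamM_card hm, hTlen]
  have hgp := cz_eq TL univ hU hUs hc
  rw [← shape_eq, ht, hlam, card_univ, Fintype.card_fin] at hgp
  -- cards
  have hlt : ∀ T ∈ TL, 0 < T.card ∧ T.card < n := by
    intro T hT
    refine ⟨Finset.card_pos.2 (hTs T hT).2.1, ?_⟩
    have := Finset.card_lt_card ((List.pairwise_cons.1 hU).1 T hT)
    rwa [card_univ, Fintype.card_fin] at this
  have hcp : (TL.map Finset.card).Pairwise (· > ·) := by
    rw [List.pairwise_map]
    exact List.Pairwise.imp (fun {a b} hab => Finset.card_lt_card hab) hTp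
  have hcinj : ∀ T ∈ TL, ∀ T' ∈ TL, T.card = T'.card → T = T' := by
    intro T hT T' hT' h
    have h3 : (TL.map Finset.card).Nodup := by
      refine List.Pairwise.imp (fun {a b} hab => ?_) hcp
      exact Nat.ne_of_gt hab
    exact List.inj_on_of_nodup_map h3 hT hT' h
  have hcset : ∀ a < m + 2, ∃ T ∈ TL, T.card = (if a ≤ m then 8 * (a + 1) else 8 * m + 14) ∧
      T = Ss n (T.card, false) := by
    intro a ha
    obtain ⟨T, hT, hTa⟩ := List.mem_map.1 (hall a ha)
    refine ⟨T, hT, ?_⟩
    unfold labS at hTa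
    split_ifs at hTa with h1
    have h2 := labN_eq_c (hlt T hT).1 hTa
    have h3 : T.card = (if a ≤ m then 8 * (a + 1) else 8 * m + 14) := by
      split_ifs <;> omega
    refine ⟨h3, ?_⟩
    by_contra hne
    exact h1 ⟨by split_ifs at h3 <;> omega, hne⟩
  have hlab : TL.map (labS n m) = (TL.map Finset.card).map (labN m) := by
    have e : (TL.map Finset.card).map (labN m) = TL.map (labN m ∘ Finset.card) := List.map_map
    rw [e]
    refine List.map_congr_left fun T hT => ?_
    show labS n m T = labN m T.card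
    unfold labS
    rw [if_neg]
    rintro ⟨h1, h2⟩
    apply h2
    have hT0 := (hlt T hT).1
    obtain ⟨a, ha, haT⟩ : ∃ a < m + 2, T.card = (if a ≤ m then 8 * (a + 1) else 8 * m + 14) := by
      rcases h1 with h1 | h1
      · exact ⟨m + 1, by omega, by rw [if_neg (by omega), h1]⟩
      · exact ⟨T.card / 8 - 1, by omega, by rw [if_pos (by omega)]; omega⟩
    obtain ⟨T', hT', h3, h4⟩ := hcset a ha
    have h5 := hcinj T hT T' hT' (by rw [haT, h3])
    rw [h5]
    exact h4
  rw [hlab]
  subst hn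
  refine labels_mem hN hcp ?_ ?_ ?_ hgp.symm
  · intro q hq
    obtain ⟨T, hT, rfl⟩ := List.mem_map.1 hq
    exact hlt T hT
  · intro i hi
    obtain ⟨T, hT, h3, _⟩ := hcset i (by omega)
    rw [if_pos hi] at h3
    have h6 := List.mem_map_of_mem (f := Finset.card) hT
    rw [h3] at h6
    exact h6
  · obtain ⟨T, hT, h3, _⟩ := hcset (m + 1) (by omega)
    rw [if_neg (by omega)] at h3
    have h6 := List.mem_map_of_mem (f := Finset.card) hT
    rw [h3] at h6
    exact h6

end

end Pool.Agent.KS6_98.Orb
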