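import Pool.Agent.KS6_98.Orb.Gaps

/-!
# Numerical part: the successive differences
-/

set_option autoImplicit false

namespace Pool.Agent.KS6_98.Orb

open Finset

theorem gp_append (l₁ l₂ : List ℕ) (q : ℕ) :
    ∀ N, gp N (l₁ ++ q :: l₂) = gp N (l₁ ++ [q]) + gp q l₂ := by
  induction l₁ with
  | nil => intro N; simp [gp]
  | cons a l₁ ih => intro N; rw [List.cons_append, List.cons_append, gp, gp, ih, Multiset.cons_add]

theorem gp_shift (a : ℕ) (l : List ℕ) : ∀ N, gp (a + N) (l.map (a + ·)) = gp N l := by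
  induction l with
  | nil => intro N; rfl
  | cons q l ih =>
    intro N
    rw [List.map_cons, gp, gp, ih]
    congr 1
    omega

theorem gp_le (K : ℕ) (l : List ℕ) : ∀ N ≤ K, (∀ q ∈ l, q ≤ K) → ∀ d ∈ gp N l, d ≤ K := by
  induction l with
  | nil => intro N _ _ d hd; simp [gp] at hd
  | cons q l ih =>
    intro N hN hl d hd
    rw [gp, Multiset.mem_cons] at hd
    rcases hd with rfl | hd
    · omega
    · exact ih q (hl q List.mem_cons_self) (fun r hr => hl r (List.mem_cons_of_mem _ hr)) d hd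

/-- lists made of bins of length `8` -/
def Al (β : ℕ → List ℕ) : ℕ → List ℕ
  | 0 => []
  | M + 1 => (β M).map (8 * M + ·) ++ 8 * M :: Al β M

theorem gp_Al (β : ℕ → List ℕ) (M : ℕ) :
    gp (8 * M) (Al β M) = ∑ i ∈ range M, gp 8 (β i ++ [0]) := by
  induction M with
  | zero => rfl
  | succ M ih =>
    rw [Finset.sum_range_succ, ← ih, Al, gp_append, add_comm]
    congr 1
    have : (β M).map (8 * M + ·) ++ [8 * M] = (β M ++ [0]).map (8 * M + ·) := by simp
    rw [this, show 8 * (M + 1) = 8 * M + 8 by ring, gp_shift]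

/-- the full list -/
def Fl (m : ℕ) (δ γ : List ℕ) (β : ℕ → List ℕ) : List ℕ :=
  δ.map (8 * m + 14 + ·) ++ (8 * m + 14) :: (γ.map (8 * m + 8 + ·) ++ (8 * m + 8) :: Al β (m + 1))

theorem gp_Fl (m N : ℕ) (δ γ : List ℕ) (β : ℕ → List ℕ) :
    gp (8 * m + 14 + N) (Fl m δ γ β) = gp N (δ ++ [0]) + (gp 6 (γ ++ [0]) +
      ∑ i ∈ range (m + 1), gp 8 (β i ++ [0])) := by
  rw [Fl, gp_append, gp_append (γ.map (8 * m + 8 + ·)) (Al β (m + 1)) (8 * m + 8), ← gp_Al]
  congr 1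
  · have : δ.map (8 * m + 14 + ·) ++ [8 * m + 14] = (δ ++ [0]).map (8 * m + 14 + ·) := by simp
    rw [this, gp_shift]
  · congr 1
    have : γ.map (8 * m + 8 + ·) ++ [8 * m + 8] = (γ ++ [0]).map (8 * m + 8 + ·) := by simp
    rw [this, show 8 * m + 14 = 8 * m + 8 + 6 by ring, gp_shift]

theorem Al_congr {β β' : ℕ → List ℕ} {M : ℕ} (h : ∀ i < M, β i = β' i) : Al β M = Al β' M := by
  induction M with
  | zero => rfl
  | succ M ih => rw [Al, Al, h M (by omega), ih fun i hi => h i (by omega)]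

theorem split_at {l : List ℕ} (h : l.Pairwise (· > ·)) {q : ℕ} (hq : q ∈ l) :
    ∃ l₁ l₂, l = l₁ ++ q :: l₂ ∧ (∀ a ∈ l₁, q < a) ∧ (∀ a ∈ l₂, a < q) ∧
      l₁.Pairwise (· > ·) ∧ l₂.Pairwise (· > ·) := by
  obtain ⟨l₁, l₂, rfl⟩ := List.append_of_mem hq
  rw [List.pairwise_append, List.pairwise_cons] at h
  exact ⟨l₁, l₂, rfl, fun a ha => h.2.2 a ha q List.mem_cons_self, h.2.1.1, h.1, h.2.1.2⟩

theorem unshift {l : List ℕ} {q K : ℕ} (h : ∀ a ∈ l, q < a) (h2 : ∀ a ∈ l, a < q + K)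
    (hp : l.Pairwise (· > ·)) : ∃ b : List ℕ, l = b.map (q + ·) ∧ b.Pairwise (· > ·) ∧
      ∀ r ∈ b, 0 < r ∧ r < K := by
  refine ⟨l.map (· - q), ?_, ?_, ?_⟩
  · rw [List.map_map]
    conv_lhs => rw [← List.map_id l]
    refine List.map_congr_left fun a ha => ?_
    have := h a ha
    simp only [id_eq, Function.comp_apply]
    omega
  · rw [List.pairwise_map]
    refine List.Pairwise.imp_of_mem (fun {a b} ha hb hab => ?_) hp
    have h3 := h a ha
    have h4 := h b hb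
    show b - q < a - q
    have : b < a := hab
    omega
  · intro r hr
    obtain ⟨a, ha, rfl⟩ := List.mem_map.1 hr
    have h3 := h a ha
    have h4 := h2 a ha
    omega

theorem exists_Al (M : ℕ) : ∀ l : List ℕ, l.Pairwise (· > ·) → (∀ q ∈ l, q < 8 * M) →
    (∀ i < M, 8 * i ∈ l) → ∃ β : ℕ → List ℕ, l = Al β M ∧
      ∀ i < M, (β i).Pairwise (· > ·) ∧ ∀ r ∈ β i, 0 < r ∧ r < 8 := by
  induction M with
  | zero =>
    intro l _ h2 _
    refine ⟨fun _ => [], ?_, fun i hi => absurd hi (by omega)⟩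
    rw [Al]
    cases l with
    | nil => rfl
    | cons a l => exact absurd (h2 a List.mem_cons_self) (by omega)
  | succ M ih =>
    intro l h1 h2 h3
    obtain ⟨l₁, l₂, rfl, h4, h5, h6, h7⟩ := split_at h1 (h3 M (by omega))
    obtain ⟨β, hβ, hβ'⟩ := ih l₂ h7 h5 (fun i hi => by
      have := h3 i (by omega)
      rcases List.mem_append.1 this with h | h
      · exact absurd (h4 _ h) (by omega)
      · rcases List.mem_cons.1 h with h | h
        · omega
        · exact h)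
    obtain ⟨b, hb, hb1, hb2⟩ := unshift (K := 8) h4 (fun a ha => by
      have := h2 a (List.mem_append_left _ ha)
      omega) h6
    refine ⟨fun i => if i = M then b else β i, ?_, ?_⟩
    · rw [Al, if_pos rfl, ← hb, hβ]
      congr 2
      refine Al_congr fun i hi => ?_
      rw [if_neg (by omega)]
    · intro i hi
      dsimp only
      split_ifs with h
      · exact ⟨hb1, hb2⟩
      · exact hβ' i (by omega)

theorem exists_Fl (m N : ℕ) (l : List ℕ) (h1 : l.Pairwise (· > ·))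
    (h2 : ∀ q ∈ l, q < 8 * m + 14 + N) (h3 : ∀ i ≤ m + 1, 8 * i ∈ l) (h4 : 8 * m + 14 ∈ l) :
    ∃ (δ γ : List ℕ) (β : ℕ → List ℕ), l = Fl m δ γ β ∧
      (δ.Pairwise (· > ·) ∧ ∀ r ∈ δ, 0 < r ∧ r < N) ∧ (γ.Pairwise (· > ·) ∧
        ∀ r ∈ γ, 0 < r ∧ r < 6) ∧ ∀ i < m + 1, (β i).Pairwise (· > ·) ∧ ∀ r ∈ β i, 0 < r ∧ r < 8 := by
  obtain ⟨l₁, l₂, rfl, a1, a2, a3, a4⟩ := split_at h1 h4
  have h8 : 8 * m + 8 ∈ l₂ := by
    have := h3 (m + 1) le_rfl
    rcases List.mem_append.1 this with h | h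
    · exact absurd (a1 _ h) (by omega)
    · rcases List.mem_cons.1 h with h | h
      · omega
      · rwa [show 8 * m + 8 = 8 * (m + 1) by ring]
  obtain ⟨l₃, l₄, rfl, b1, b2, b3, b4⟩ := split_at a4 h8
  obtain ⟨β, hβ, hβ'⟩ := exists_Al (m + 1) l₄ b4 (fun q hq => by
    have := b2 q hq
    omega) (fun i hi => by
      have := h3 i (by omega)
      rcases List.mem_append.1 this with h | h
      · exact absurd (a1 _ h) (by omega)
      · rcases List.mem_cons.1 h with h | h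
        · omega
        · rcases List.mem_append.1 h with h | h
          · exact absurd (b1 _ h) (by omega)
          · rcases List.mem_cons.1 h with h | h
            · omega
            · exact h)
  obtain ⟨δ, hδ, hδ1, hδ2⟩ := unshift (K := N) a1 (fun a ha => h2 a (List.mem_append_left _ ha)) a3
  obtain ⟨γ, hγ, hγ1, hγ2⟩ := unshift (K := 6) b1 (fun a ha => by
    have := a2 a (List.mem_append_left _ ha)
    omega) b3
  refine ⟨δ, γ, β, ?_, ⟨hδ1, hδ2⟩, ⟨hγ1, hγ2⟩, hβ'⟩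
  rw [Fl, ← hδ, ← hγ, ← hβ]

/-- the shape -/
def lamM (m N : ℕ) : Multiset ℕ :=
  N ::ₘ 8 ::ₘ 6 ::ₘ 2 ::ₘ 2 ::ₘ Multiset.replicate (2 * m - 1) 4

theorem bin_cases (b : List ℕ) (h1 : b.Pairwise (· > ·)) (h2 : ∀ r ∈ b, 0 < r ∧ r < 8)
    (h3 : ∀ d ∈ gp 8 (b ++ [0]), d % 2 = 0) :
    b = [] ∨ b = [2] ∨ b = [4] ∨ b = [6] ∨ b = [4, 2] ∨ b = [6, 2] ∨ b = [6, 4] ∨
      b = [6, 4, 2] := by
  rcases b with _ | ⟨q, b⟩
  · exact Or.inl rfl
  rcases b with _ | ⟨q', b⟩
  · simp [gp] at h2 h3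
    have : q = 2 ∨ q = 4 ∨ q = 6 := by omega
    rcases this with rfl | rfl | rfl <;> simp
  rcases b with _ | ⟨q'', b⟩
  · simp [gp] at h1 h2 h3
    have : q = 4 ∧ q' = 2 ∨ q = 6 ∧ q' = 2 ∨ q = 6 ∧ q' = 4 := by omega
    rcases this with ⟨rfl, rfl⟩ | ⟨rfl, rfl⟩ | ⟨rfl, rfl⟩ <;> simp
  rcases b with _ | ⟨q''', b⟩
  · simp [gp] at h1 h2 h3
    have : q = 6 ∧ q' = 4 ∧ q'' = 2 := by omega
    rcases this with ⟨rfl, rfl, rfl⟩
    simp
  · exfalso
    simp only [List.pairwise_cons, List.mem_cons, forall_eq_or_imp, List.cons_append, gp,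
      Multiset.mem_cons] at h1 h2 h3
    omega

theorem garb_cases (b : List ℕ) (h1 : b.Pairwise (· > ·)) (h2 : ∀ r ∈ b, 0 < r ∧ r < 6)
    (h3 : ∀ d ∈ gp 6 (b ++ [0]), d % 2 = 0) :
    b = [] ∨ b = [2] ∨ b = [4] ∨ b = [4, 2] := by
  rcases b with _ | ⟨q, b⟩
  · exact Or.inl rfl
  rcases b with _ | ⟨q', b⟩
  · simp [gp] at h2 h3
    have : q = 2 ∨ q = 4 := by omega
    rcases this with rfl | rfl <;> simp
  rcases b with _ | ⟨q'', b⟩
  · simp [gp] at h1 h2 h3
    have : q = 4 ∧ q' = 2 := by omega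
    rcases this with ⟨rfl, rfl⟩
    simp
  · exfalso
    simp only [List.pairwise_cons, List.mem_cons, forall_eq_or_imp, List.cons_append, gp,
      Multiset.mem_cons] at h1 h2 h3
    omega

end Pool.Agent.KS6_98.Orb
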