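import Pool.Agent.KS6_98.Orb.Class

/-!
# The full lists: order, membership, multiset of entries, and the successive differences
-/

set_option autoImplicit false

namespace Pool.Agent.KS6_98.Orb

open Finset

theorem gp_valid {m N w j : ℕ} {γ : List ℕ} {β : ℕ → List ℕ} (hw : w ∈ range (m + 1))
    (hj : j ∈ range (m + 1)) (hwj : w ≠ j) (h1 : β w = [])
    (h2 : ∀ i ∈ range (m + 1), i ≠ w → i ≠ j → β i = [4])
    (h3 : (β j = [4, 2] ∧ γ = []) ∨ (β j = [2] ∧ γ = [2])) :
    gp (8 * m + 14 + N) (Fl m [] γ β) = lamM m N := by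
  have hm : ∃ m', m = m' + 1 := by
    rw [mem_range] at hw hj
    exact ⟨m - 1, by omega⟩
  rw [gp_Fl, sum_two (fun i => gp 8 (β i ++ [0])) hw hj hwj]
  have e1 : ∑ i ∈ ((range (m + 1)).erase w).erase j, gp 8 (β i ++ [0]) =
      Multiset.replicate (2 * (m - 1)) 4 := by
    have : ∀ i ∈ ((range (m + 1)).erase w).erase j,
        gp 8 (β i ++ [0]) = Multiset.replicate 2 4 := by
      intro i hi
      rw [Finset.mem_erase, Finset.mem_erase] at hi
      rw [h2 i hi.2.2 hi.2.1 hi.1]
      rfl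
    rw [Finset.sum_congr rfl this, Finset.sum_const, Multiset.nsmul_replicate]
    congr 1
    rw [Finset.card_erase_of_mem (Finset.mem_erase.2 ⟨hwj.symm, hj⟩),
      Finset.card_erase_of_mem hw, Finset.card_range]
    omega
  rw [e1, h1]
  obtain ⟨m', rfl⟩ := hm
  have e2 : Multiset.replicate (2 * (m' + 1) - 1) 4 =
      4 ::ₘ Multiset.replicate (2 * (m' + 1 - 1)) 4 := by
    rw [← Multiset.replicate_succ]
    congr 1
  rw [lamM, e2]
  generalize Multiset.replicate (2 * (m' + 1 - 1)) 4 = R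
  rcases h3 with ⟨h3, h4⟩ | ⟨h3, h4⟩
  · rw [h3, h4]
    simp only [gp, List.nil_append, List.cons_append, Nat.sub_zero]
    ext a
    simp only [Multiset.count_add, Multiset.count_cons, Multiset.count_zero]
    ring
  · rw [h3, h4]
    simp only [gp, List.nil_append, List.cons_append, Nat.sub_zero]
    ext a
    simp only [Multiset.count_add, Multiset.count_cons, Multiset.count_zero]
    ring

theorem Al_pairwise {β : ℕ → List ℕ} {M : ℕ}
    (h : ∀ i < M, (β i).Pairwise (· > ·) ∧ ∀ r ∈ β i, 0 < r ∧ r < 8) :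
    (Al β M).Pairwise (· > ·) ∧ ∀ q ∈ Al β M, q < 8 * M := by
  induction M with
  | zero => exact ⟨List.Pairwise.nil, fun q hq => absurd hq (by simp [Al])⟩
  | succ M ih =>
    obtain ⟨ih1, ih2⟩ := ih fun i hi => h i (by omega)
    obtain ⟨h1, h2⟩ := h M (by omega)
    constructor
    · rw [Al, List.pairwise_append, List.pairwise_cons, List.pairwise_map]
      refine ⟨List.Pairwise.imp (fun {a b} hab => by
        have : b < a := hab
        show 8 * M + b < 8 * M + a
        omega) h1, ⟨ih2, ih1⟩, ?_⟩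
      intro a ha b hb
      obtain ⟨r, hr, rfl⟩ := List.mem_map.1 ha
      have hr' := h2 r hr
      rcases List.mem_cons.1 hb with rfl | hb
      · show 8 * M < 8 * M + r
        omega
      · have := ih2 b hb
        show b < 8 * M + r
        omega
    · intro q hq
      rw [Al, List.mem_append, List.mem_cons] at hq
      rcases hq with hq | rfl | hq
      · obtain ⟨r, hr, rfl⟩ := List.mem_map.1 hq
        have hr' := h2 r hr
        omega
      · omega
      · have := ih2 q hq
        omega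

theorem Fl_pairwise {m : ℕ} {γ : List ℕ} {β : ℕ → List ℕ}
    (hγ : γ.Pairwise (· > ·) ∧ ∀ r ∈ γ, 0 < r ∧ r < 6)
    (hβ : ∀ i < m + 1, (β i).Pairwise (· > ·) ∧ ∀ r ∈ β i, 0 < r ∧ r < 8) :
    (Fl m [] γ β).Pairwise (· > ·) ∧ ∀ q ∈ Fl m [] γ β, q < 8 * m + 14 + 1 := by
  obtain ⟨h1, h2⟩ := Al_pairwise hβ
  have h3 : ((γ.map (8 * m + 8 + ·)) ++ (8 * m + 8) :: Al β (m + 1)).Pairwise (· > ·) ∧
      ∀ q ∈ (γ.map (8 * m + 8 + ·)) ++ (8 * m + 8) :: Al β (m + 1), q < 8 * m + 14 := by
    constructor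
    · rw [List.pairwise_append, List.pairwise_cons, List.pairwise_map]
      refine ⟨List.Pairwise.imp (fun {a b} hab => by
        have : b < a := hab
        show 8 * m + 8 + b < 8 * m + 8 + a
        omega) hγ.1, ⟨fun q hq => by
          have := h2 q hq
          show q < 8 * m + 8
          omega, h1⟩, ?_⟩
      intro a ha b hb
      obtain ⟨r, hr, rfl⟩ := List.mem_map.1 ha
      have hr' := hγ.2 r hr
      rcases List.mem_cons.1 hb with rfl | hb
      · show 8 * m + 8 < 8 * m + 8 + r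
        omega
      · have := h2 b hb
        show b < 8 * m + 8 + r
        omega
    · intro q hq
      rw [List.mem_append, List.mem_cons] at hq
      rcases hq with hq | rfl | hq
      · obtain ⟨r, hr, rfl⟩ := List.mem_map.1 hq
        have hr' := hγ.2 r hr
        omega
      · omega
      · have := h2 q hq
        omega
  constructor
  · rw [Fl, List.map_nil, List.nil_append, List.pairwise_cons]
    exact ⟨h3.2, h3.1⟩
  · intro q hq
    rw [Fl, List.map_nil, List.nil_append, List.mem_cons] at hq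
    rcases hq with rfl | hq
    · omega
    · have := h3.2 q hq
      omega

theorem Al_last (β : ℕ → List ℕ) (M : ℕ) : ∃ l, Al β (M + 1) = l ++ [0] := by
  induction M with
  | zero => exact ⟨(β 0).map (8 * 0 + ·), rfl⟩
  | succ M ih =>
    obtain ⟨l, hl⟩ := ih
    exact ⟨(β (M + 1)).map (8 * (M + 1) + ·) ++ 8 * (M + 1) :: l, by rw [Al, hl]; simp⟩

theorem Fl_last (m : ℕ) (δ γ : List ℕ) (β : ℕ → List ℕ) : ∃ l, Fl m δ γ β = l ++ [0] := by
  obtain ⟨l, hl⟩ := Al_last β m
  exact ⟨δ.map (8 * m + 14 + ·) ++ (8 * m + 14) :: (γ.map (8 * m + 8 + ·) ++ (8 * m + 8) :: l), by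
    rw [Fl, hl]; simp⟩

theorem mem_Al {β : ℕ → List ℕ} {M i r : ℕ} (hi : i < M) (hr : r ∈ β i) : 8 * i + r ∈ Al β M := by
  induction M with
  | zero => omega
  | succ M ih =>
    rw [Al, List.mem_append]
    by_cases h : i = M
    · subst h
      exact Or.inl (List.mem_map.2 ⟨r, hr, rfl⟩)
    · exact Or.inr (List.mem_cons_of_mem _ (ih (by omega)))

theorem mem_Al' {β : ℕ → List ℕ} {M i : ℕ} (hi : i < M) : 8 * i ∈ Al β M := by
  induction M with
  | zero => omega
  | succ M ih =>
    rw [Al, List.mem_append]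
    by_cases h : i = M
    · subst h
      exact Or.inr List.mem_cons_self
    · exact Or.inr (List.mem_cons_of_mem _ (ih (by omega)))

theorem mem_Fl {m : ℕ} {δ γ : List ℕ} {β : ℕ → List ℕ} {q : ℕ}
    (h : q = 8 * m + 14 ∨ (∃ r ∈ γ, q = 8 * m + 8 + r) ∨ (∃ a ≤ m + 1, q = 8 * a) ∨
      ∃ i < m + 1, ∃ r ∈ β i, q = 8 * i + r) : q ∈ Fl m δ γ β := by
  rw [Fl, List.mem_append, List.mem_cons, List.mem_append, List.mem_cons]
  rcases h with rfl | ⟨r, hr, rfl⟩ | ⟨a, ha, rfl⟩ | ⟨i, hi, r, hr, rfl⟩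
  · exact Or.inr (Or.inl rfl)
  · exact Or.inr (Or.inr (Or.inl (List.mem_map.2 ⟨r, hr, rfl⟩)))
  · by_cases h : a = m + 1
    · subst h
      exact Or.inr (Or.inr (Or.inr (Or.inl (by ring))))
    · exact Or.inr (Or.inr (Or.inr (Or.inr (mem_Al' (by omega)))))
  · exact Or.inr (Or.inr (Or.inr (Or.inr (mem_Al hi hr))))

theorem Al_even {β : ℕ → List ℕ} {M : ℕ} (h : ∀ i < M, ∀ r ∈ β i, r % 2 = 0) :
    ∀ q ∈ Al β M, q % 2 = 0 := by
  induction M with
  | zero => exact fun q hq => absurd hq (by simp [Al])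
  | succ M ih =>
    intro q hq
    rw [Al, List.mem_append, List.mem_cons] at hq
    rcases hq with hq | rfl | hq
    · obtain ⟨r, hr, rfl⟩ := List.mem_map.1 hq
      have := h M (by omega) r hr
      omega
    · omega
    · exact ih (fun i hi => h i (by omega)) q hq

theorem Fl_even {m : ℕ} {γ : List ℕ} {β : ℕ → List ℕ} (hγ : ∀ r ∈ γ, r % 2 = 0)
    (hβ : ∀ i < m + 1, ∀ r ∈ β i, r % 2 = 0) : ∀ q ∈ Fl m [] γ β, q % 2 = 0 := by
  intro q hq
  rw [Fl, List.map_nil, List.nil_append, List.mem_cons, List.mem_append, List.mem_cons] at hq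
  rcases hq with rfl | hq | rfl | hq
  · omega
  · obtain ⟨r, hr, rfl⟩ := List.mem_map.1 hq
    have := hγ r hr
    omega
  · omega
  · exact Al_even hβ q hq

theorem Al_mul (β : ℕ → List ℕ) (M : ℕ) : (Al β M : Multiset ℕ) =
    (Multiset.range M).map (8 * ·) + ∑ i ∈ range M, ((β i).map (8 * i + ·) : Multiset ℕ) := by
  induction M with
  | zero => rfl
  | succ M ih =>
    rw [Al, ← Multiset.coe_add, ← Multiset.cons_coe, ih, Multiset.range_succ, Multiset.map_cons,
      Finset.sum_range_succ]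
    ext a
    simp only [Multiset.count_add, Multiset.count_cons]
    ring

theorem range_mul (m : ℕ) : (Multiset.range (m + 1)).map (8 * ·) =
    0 ::ₘ (Multiset.range m).map fun i => 8 * (i + 1) := by
  induction m with
  | zero => rfl
  | succ m ih =>
    rw [Multiset.range_succ, Multiset.map_cons, ih, Multiset.range_succ, Multiset.map_cons,
      Multiset.cons_swap]

theorem Fl_mul {m : ℕ} {γ : List ℕ} {β : ℕ → List ℕ} {l : List ℕ}
    (h : l ++ [0] = Fl m [] γ β) : (l : Multiset ℕ) =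
      (8 * m + 14) ::ₘ (8 * m + 8) ::ₘ ((Multiset.range m).map (fun i => 8 * (i + 1)) +
        ((γ.map (8 * m + 8 + ·) : Multiset ℕ) +
          ∑ i ∈ range (m + 1), ((β i).map (8 * i + ·) : Multiset ℕ))) := by
  have h1 : (l : Multiset ℕ) + {0} = (Fl m [] γ β : Multiset ℕ) := by
    rw [← h, ← Multiset.coe_add]
    rfl
  have h2 : (Fl m [] γ β : Multiset ℕ) =
      (8 * m + 14) ::ₘ (8 * m + 8) ::ₘ ((Multiset.range m).map (fun i => 8 * (i + 1)) +
        ((γ.map (8 * m + 8 + ·) : Multiset ℕ) +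
          ∑ i ∈ range (m + 1), ((β i).map (8 * i + ·) : Multiset ℕ))) + {0} := by
    rw [Fl, List.map_nil, List.nil_append, ← Multiset.cons_coe, ← Multiset.coe_add,
      ← Multiset.cons_coe, Al_mul, range_mul]
    ext a
    simp only [Multiset.count_add, Multiset.count_cons, Multiset.count_singleton]
    ring
  rw [h2] at h1
  exact add_right_cancel h1

end Pool.Agent.KS6_98.Orb
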