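import Pool.Agent.KS6_98.Orb.Num2

/-!
# The sets belonging to codes, and the partitions belonging to lists of sets
-/

set_option autoImplicit false

namespace Pool.Agent.KS6_98.Orb

open Finset

/-- codes: a size and a flag -/
abbrev Code : Type := ℕ × Bool

/-- the set of a code: an initial segment, or an initial segment with the last element moved -/
def Ss (n : ℕ) (p : Code) : Finset (Fin n) :=
  univ.filter fun x => if p.2 = true then x.val + 1 < p.1 ∨ x.val = p.1 else x.val < p.1

section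

variable {n : ℕ}

theorem mem_Ss {p : Code} {x : Fin n} : x ∈ Ss n p ↔
    (p.2 = false ∧ x.val < p.1) ∨ (p.2 = true ∧ (x.val + 1 < p.1 ∨ x.val = p.1)) := by
  rw [Ss, mem_filter]
  rcases p with ⟨q, b⟩
  cases b <;> simp

theorem card_lt_filter {K : ℕ} (hK : K ≤ n) :
    (univ.filter fun x : Fin n => x.val < K).card = K := by
  have : (univ.filter fun x : Fin n => x.val < K) =
      (Finset.univ : Finset (Fin K)).map (Fin.castLEEmb hK) := by
    ext x
    simp only [mem_filter, mem_univ, true_and, mem_map]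
    constructor
    · intro hx
      exact ⟨⟨x.val, hx⟩, by ext; simp⟩
    · rintro ⟨y, rfl⟩
      simp
  rw [this, card_map, card_univ, Fintype.card_fin]

theorem Ss_card {p : Code} (hp : 1 ≤ p.1) (hpn : p.1 < n) : (Ss n p).card = p.1 := by
  rcases p with ⟨q, b⟩
  simp only at hp hpn
  cases b
  · have : Ss n (q, false) = univ.filter fun x : Fin n => x.val < q := by
      ext x; simp [mem_Ss]
    rw [this, card_lt_filter hpn.le]
  · have : Ss n (q, true) = insert (⟨q, hpn⟩ : Fin n)
        (univ.filter fun x : Fin n => x.val < q - 1) := by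
      ext x
      rw [mem_Ss, mem_insert, mem_filter, Fin.ext_iff]
      simp only [mem_univ, true_and, Bool.true_eq_false, false_and, false_or]
      omega
    rw [this, card_insert_of_notMem, card_lt_filter (by omega)]
    · show q - 1 + 1 = q
      omega
    · simp only [mem_filter, mem_univ, true_and]
      omega

theorem Ss_subset {p q : Code} (hp : p.1 % 2 = 0) (hq : q.1 % 2 = 0) (h : p.1 < q.1) :
    Ss n p ⊆ Ss n q := by
  intro x hx
  rw [mem_Ss] at hx ⊢
  rcases q with ⟨q, b⟩
  simp only at h hq ⊢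
  cases b
  · left
    refine ⟨rfl, ?_⟩
    omega
  · right
    refine ⟨rfl, ?_⟩
    omega

theorem Ss_ssubset {p q : Code} (hp : p.1 % 2 = 0) (hq : q.1 % 2 = 0) (hp1 : 1 ≤ p.1)
    (h : p.1 < q.1) (hqn : q.1 < n) : Ss n p ⊂ Ss n q := by
  refine ⟨Ss_subset hp hq h, fun hs => ?_⟩
  have := Finset.card_le_card hs
  rw [Ss_card hp1 (by omega), Ss_card (by omega) hqn] at this
  omega

/-- the coarsest partition for which all sets of the list are saturated -/
def bset (L : List (Finset (Fin n))) : Setoid (Fin n) where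
  r x y := ∀ S ∈ L, x ∈ S ↔ y ∈ S
  iseqv :=
    { refl := fun _ _ _ => Iff.rfl
      symm := fun h S hS => (h S hS).symm
      trans := fun h h' S hS => (h S hS).trans (h' S hS) }

theorem bset_iff {L : List (Finset (Fin n))} {x y : Fin n} :
    bset L x y ↔ ∀ S ∈ L, x ∈ S ↔ y ∈ S := Iff.rfl

theorem bset_perm {L L' : List (Finset (Fin n))} (h : L.Perm L') : bset L = bset L' := by
  ext x y
  rw [bset_iff, bset_iff]
  exact ⟨fun hh S hS => hh S (h.symm.subset hS), fun hh S hS => hh S (h.subset hS)⟩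

theorem bset_anti {L L' : List (Finset (Fin n))} (h : L ⊆ L') : bset L' ≤ bset L :=
  fun _ _ hh S hS => hh S (h hS)

open Classical in
/-- the complement of the class of `z` -/
noncomputable def Tz (z : Fin n) (s : Setoid (Fin n)) : Finset (Fin n) :=
  univ.filter fun x => ¬ s x z

theorem mem_Tz {z : Fin n} {s : Setoid (Fin n)} {x : Fin n} : x ∈ Tz z s ↔ ¬ s x z := by
  simp [Tz]

theorem Tz_anti {z : Fin n} {s s' : Setoid (Fin n)} (h : s ≤ s') : Tz z s' ⊆ Tz z s := by
  intro x hx
  rw [mem_Tz] at hx ⊢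
  exact fun hh => hx (h hh)

theorem Tz_nonempty {z : Fin n} {s : Setoid (Fin n)} (h : s ≠ ⊤) : (Tz z s).Nonempty := by
  by_contra hcon
  apply h
  rw [eq_top_iff]
  intro x y _
  have h1 : ∀ x, s x z := by
    intro x
    by_contra hx
    exact hcon ⟨x, mem_Tz.2 hx⟩
  exact s.trans' (h1 x) (s.symm' (h1 y))

theorem Tz_sat {z : Fin n} {s t : Setoid (Fin n)} (h : t ≤ s) : Sat t (Tz z s) := by
  intro a ha b hab
  rw [mem_Tz] at ha ⊢
  exact fun hb => ha (s.trans' (h hab) hb)

/-! ### Good lists of codes -/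

/-- good lists of codes -/
def GoodL (m N : ℕ) (l : List Code) : Prop :=
  (l.map Prod.fst).Nodup ∧ ∃ sz : List ℕ, sz.Pairwise (· > ·) ∧
    (∀ q ∈ sz, 0 < q ∧ q < 8 * m + 14 + 1 ∧ q % 2 = 0) ∧
      gp (8 * m + 14 + N) (sz ++ [0]) = lamM m N ∧ ∀ p ∈ l, p.1 ∈ sz

theorem GoodL.sublist {m N : ℕ} {l l' : List Code} (h : GoodL m N l) (hs : l'.Sublist l) :
    GoodL m N l' := by
  obtain ⟨h1, sz, h2, h3, h4, h5⟩ := h
  exact ⟨h1.sublist (hs.map _), sz, h2, h3, h4, fun p hp => h5 p (hs.subset hp)⟩

theorem GoodL.fst {m N : ℕ} {l : List Code} (h : GoodL m N l) {p : Code} (hp : p ∈ l) :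
    0 < p.1 ∧ p.1 < 8 * m + 14 + 1 ∧ p.1 % 2 = 0 := by
  obtain ⟨h1, sz, h2, h3, h4, h5⟩ := h
  exact h3 _ (h5 p hp)

theorem GoodL.inj {m N : ℕ} {l : List Code} (h : GoodL m N l) {p q : Code} (hp : p ∈ l)
    (hq : q ∈ l) (e : p.1 = q.1) : p = q :=
  List.inj_on_of_nodup_map h.1 hp hq e

/-- A good list lies above a partition of the right shape. -/
theorem GoodL.exists_shape {m N : ℕ} (hN : 9 ≤ N) (hn : n = 8 * m + 14 + N) {l : List Code}
    (h : GoodL m N l) : ∃ t : Setoid (Fin n), shape t = lamM m N ∧ t ≤ bset (l.map (Ss n)) := by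
  classical
  have hinj := @GoodL.inj m N l h
  obtain ⟨h1, sz, h2, h3, h4, h5⟩ := h
  set ε : ℕ → Bool := fun q => decide ((q, true) ∈ l) with hε
  set TL : List (Finset (Fin n)) := sz.map fun q => Ss n (q, ε q) with hTL
  have hpair : TL.Pairwise fun A B => B ⊂ A := by
    rw [hTL, List.pairwise_map]
    refine List.Pairwise.imp_of_mem (fun {a b} ha hb hab => ?_) h2
    have ha' := h3 a ha
    have hb' := h3 b hb
    exact Ss_ssubset hb'.2.2 ha'.2.2 hb'.1 hab (by show a < n; omega)
  have hsat := chain_sat TL hpair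
  set t : Setoid (Fin n) := Setoid.ker fun a : Fin n => TL.countP fun S => a ∈ S with ht
  have hU : (univ :: TL).Pairwise fun A B => B ⊂ A := by
    rw [List.pairwise_cons]
    refine ⟨fun A hA => ?_, hpair⟩
    obtain ⟨q, hq, rfl⟩ := List.mem_map.1 hA
    have hq' := h3 q hq
    refine ⟨Finset.subset_univ _, fun hs => ?_⟩
    have := Finset.card_le_card hs
    rw [Ss_card (p := (q, ε q)) hq'.1 (by show q < n; omega), card_univ,
      Fintype.card_fin] at this
    change n ≤ q at this
    omega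
  have hUs : ∀ T ∈ univ :: TL, Sat t T ∧ T.Nonempty := by
    intro T hT
    rcases List.mem_cons.1 hT with rfl | hT
    · exact ⟨fun a _ b _ => Finset.mem_univ b, ⟨⟨0, by omega⟩, Finset.mem_univ _⟩⟩
    · refine ⟨hsat T hT, ?_⟩
      obtain ⟨q, hq, rfl⟩ := List.mem_map.1 hT
      have hq' := h3 q hq
      rw [← Finset.card_pos, Ss_card (p := (q, ε q)) hq'.1 (by show q < n; omega)]
      exact hq'.1
  have hc : Multiset.card (cz t univ) = TL.length + 1 := by
    apply le_antisymm
    · exact card_cz_ker _ _ fun a => List.countP_le_length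
    · exact cz_ge TL univ hU hUs
  have hsh : shape t = lamM m N := by
    rw [shape_eq, cz_eq TL univ hU hUs hc, card_univ, Fintype.card_fin, hTL, List.map_map]
    have : sz.map (Finset.card ∘ fun q => Ss n (q, ε q)) = sz := by
      conv_rhs => rw [← List.map_id sz]
      refine List.map_congr_left fun q hq => ?_
      have hq' := h3 q hq
      show (Ss n (q, ε q)).card = q
      rw [Ss_card (p := (q, ε q)) hq'.1 (by show q < n; omega)]
    rw [this, hn]
    exact h4
  refine ⟨t, hsh, fun x y hxy => ?_⟩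
  show bset (l.map (Ss n)) x y
  rw [bset_iff]
  intro S hS
  obtain ⟨p, hp, rfl⟩ := List.mem_map.1 hS
  have hpT : Ss n p ∈ TL := by
    refine List.mem_map.2 ⟨p.1, h5 p hp, ?_⟩
    have : (p.1, ε p.1) = p := by
      rcases p with ⟨q, b⟩
      cases b
      · have : ε q = false := by
          rw [hε]
          simp only [decide_eq_false_iff_not]
          intro hq
          have := hinj hp hq rfl
          simp at this
        simp only [this]
      · have : ε q = true := by
          rw [hε]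
          simp only [decide_eq_true_eq]
          exact hp
        simp only [this]
    show Ss n (p.1, ε p.1) = Ss n p
    rw [this]
  exact ⟨fun hx => hsat _ hpT x hx y hxy, fun hy => hsat _ hpT y hy x (t.symm' hxy)⟩

theorem not_mem_Ss {m N : ℕ} (hN : 9 ≤ N) (hn : n = 8 * m + 14 + N) {z : Fin n}
    (hz : z.val = n - 1) {l : List Code} (h : GoodL m N l) {p : Code} (hp : p ∈ l) :
    z ∉ Ss n p := by
  rw [mem_Ss]
  have := h.fst hp
  omega

/-- The complement of the class of `z` is a set of the list. -/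
theorem GoodL.exists_T {m N : ℕ} (hN : 9 ≤ N) (hn : n = 8 * m + 14 + N) {z : Fin n}
    (hz : z.val = n - 1) {l : List Code} (h : GoodL m N l) (hl : l ≠ []) :
    ∃ a ∈ l, Tz z (bset (l.map (Ss n))) = Ss n a := by
  classical
  obtain ⟨a, ha, hmax⟩ := Finset.exists_max_image l.toFinset Prod.fst (by
    obtain ⟨b, hb⟩ := List.exists_mem_of_ne_nil l hl
    exact ⟨b, List.mem_toFinset.2 hb⟩)
  rw [List.mem_toFinset] at ha
  refine ⟨a, ha, ?_⟩
  ext x
  rw [mem_Tz, bset_iff]
  constructor
  · intro hx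
    by_contra hcon
    apply hx
    intro S hS
    obtain ⟨p, hp, rfl⟩ := List.mem_map.1 hS
    have hxp : x ∉ Ss n p := by
      intro hxp
      have h1 := hmax p (List.mem_toFinset.2 hp)
      rcases h1.lt_or_eq with h2 | h2
      · exact hcon (Ss_subset (h.fst hp).2.2 (h.fst ha).2.2 h2 hxp)
      · rw [h.inj hp ha h2] at hxp
        exact hcon hxp
    exact ⟨fun h' => absurd h' hxp, fun h' => absurd h' (not_mem_Ss hN hn hz h hp)⟩
  · intro hx hh
    exact not_mem_Ss hN hn hz h ha ((hh _ (List.mem_map_of_mem ha)).1 hx)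

theorem GoodL.ne_top {m N : ℕ} (hN : 9 ≤ N) (hn : n = 8 * m + 14 + N) {l : List Code}
    (h : GoodL m N l) (hl : l ≠ []) : bset (l.map (Ss n)) ≠ ⊤ := by
  intro htop
  obtain ⟨a, ha⟩ := List.exists_mem_of_ne_nil l hl
  have h0 : (⟨0, by omega⟩ : Fin n) ∈ Ss n a := by
    rw [mem_Ss]
    have := h.fst ha
    rcases a with ⟨q, b⟩
    simp only at this ⊢
    cases b
    · left; exact ⟨rfl, this.1⟩
    · right; exact ⟨rfl, by omega⟩
  have h1 : (⟨n - 1, by omega⟩ : Fin n) ∉ Ss n a := not_mem_Ss hN hn rfl h ha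
  have h2 : bset (l.map (Ss n)) (⟨0, by omega⟩ : Fin n) (⟨n - 1, by omega⟩ : Fin n) := by
    rw [htop]; trivial
  exact h1 ((h2 _ (List.mem_map_of_mem ha)).1 h0)

theorem GoodL.strict {m N : ℕ} (hN : 9 ≤ N) (hn : n = 8 * m + 14 + N) {l₁ l₂ : List Code}
    (h : GoodL m N l₂) (hs : l₁.Sublist l₂) (hlen : l₁.length < l₂.length) :
    bset (l₂.map (Ss n)) < bset (l₁.map (Ss n)) := by
  refine lt_of_le_not_ge (bset_anti (hs.map _).subset) fun hle => ?_
  have hnd : l₂.Nodup := List.Nodup.of_map _ h.1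
  obtain ⟨p, hp2, hp1⟩ : ∃ p ∈ l₂, p ∉ l₁ := by
    by_contra hcon
    push Not at hcon
    have := (List.subperm_of_subset hnd hcon).length_le
    omega
  have hpf := h.fst hp2
  set x : Fin n := ⟨p.1 - 1, by omega⟩ with hx
  set y : Fin n := ⟨p.1, by omega⟩ with hy
  have hxv : x.val = p.1 - 1 := rfl
  have hyv : y.val = p.1 := rfl
  have h1 : bset (l₁.map (Ss n)) x y := by
    rw [bset_iff]
    intro S hS
    obtain ⟨q, hq, rfl⟩ := List.mem_map.1 hS
    have hqf := h.fst (hs.subset hq)
    have hne : q.1 ≠ p.1 := fun e => hp1 (by rw [← h.inj (hs.subset hq) hp2 e]; exact hq)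
    rw [mem_Ss, mem_Ss, hxv, hyv]
    clear_value x y
    rcases q with ⟨q, b⟩
    simp only at hne hqf
    cases b
    · simp only [true_and, Bool.false_eq_true, false_and, or_false]
      omega
    · simp only [true_and, Bool.true_eq_false, false_and, false_or]
      omega
  have h2 := (hle h1) _ (List.mem_map_of_mem hp2)
  rw [mem_Ss, mem_Ss, hxv, hyv] at h2
  clear_value x y
  clear h1 hle
  rcases p with ⟨q, b⟩
  simp only at hpf
  cases b
  · simp only [Bool.false_eq_true, false_and, or_false, true_and] at h2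
    omega
  · have h3 := h2.2 (Or.inr ⟨rfl, Or.inr rfl⟩)
    simp only [Bool.true_eq_false, false_and, false_or, true_and] at h3
    omega

end

end Pool.Agent.KS6_98.Orb
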