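import Mathlib

/-!
# Combinations of lists, contractions, and the anticommutative quotient
-/

set_option autoImplicit false

namespace Pool.Agent.KS6_98.Orb

open Finsupp

/-- formal combinations of lists -/
abbrev FL (α : Type*) : Type _ := List α →₀ ℤ

section Lists

variable {α β γ : Type*}

/-- put an entry in front -/
noncomputable def consL (a : α) : FL α →ₗ[ℤ] FL α := Finsupp.lmapDomain ℤ ℤ (List.cons a)

@[simp] theorem consL_single (a : α) (l : List α) (c : ℤ) :
    consL a (single l c) = single (a :: l) c := by
  simp [consL]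

/-- apply a function to the entries -/
noncomputable def mp (f : α → β) : FL α →ₗ[ℤ] FL β := Finsupp.lmapDomain ℤ ℤ (List.map f)

@[simp] theorem mp_single (f : α → β) (l : List α) (c : ℤ) :
    mp f (single l c) = single (l.map f) c := by
  simp [mp]

theorem mp_mp (g : β → γ) (f : α → β) (x : FL α) : mp g (mp f x) = mp (g ∘ f) x := by
  induction x using Finsupp.induction_linear with
  | zero => simp
  | add x y hx hy => simp [hx, hy]
  | single l c => simp

theorem mp_consL (f : α → β) (a : α) (x : FL α) : mp f (consL a x) = consL (f a) (mp f x) := by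
  induction x using Finsupp.induction_linear with
  | zero => simp
  | add x y hx hy => simp [hx, hy]
  | single l c => simp

/-- contraction of a list with a function -/
noncomputable def conL (f : α → ℤ) : List α → FL α
  | [] => 0
  | a :: l => f a • single l 1 - consL a (conL f l)

/-- contraction with a function -/
noncomputable def con (f : α → ℤ) : FL α →ₗ[ℤ] FL α := Finsupp.linearCombination ℤ (conL f)

@[simp] theorem con_single (f : α → ℤ) (l : List α) (c : ℤ) :
    con f (single l c) = c • conL f l := by
  simp [con]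

theorem con_consL (f : α → ℤ) (a : α) (x : FL α) :
    con f (consL a x) = f a • x - consL a (con f x) := by
  induction x using Finsupp.induction_linear with
  | zero => simp
  | add x y hx hy => rw [map_add, map_add, hx, hy, map_add, map_add, smul_add]; abel
  | single l c =>
    rw [consL_single, con_single, con_single, conL, smul_sub, map_smul]
    congr 1
    simp [mul_comm]

theorem con_anti (f g : α → ℤ) (x : FL α) : con f (con g x) = -con g (con f x) := by
  have h : ∀ l : List α, con f (conL g l) = -con g (conL f l) := by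
    intro l
    induction l with
    | nil => simp [conL]
    | cons a l ih =>
      rw [conL, conL, map_sub, map_sub, con_consL, con_consL, ih, map_smul, map_smul, con_single,
        con_single, one_smul, one_smul, map_neg]
      abel
  induction x using Finsupp.induction_linear with
  | zero => simp
  | add x y hx hy => simp only [map_add, hx, hy]; abel
  | single l c => rw [con_single, con_single, map_smul, map_smul, h, smul_neg]

theorem con_self (f : α → ℤ) (x : FL α) : con f (con f x) = 0 := by
  have h : ∀ l : List α, con f (conL f l) = 0 := by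
    intro l
    induction l with
    | nil => simp [conL]
    | cons a l ih =>
      rw [conL, map_sub, con_consL, ih, map_smul, con_single]
      simp
  induction x using Finsupp.induction_linear with
  | zero => simp
  | add x y hx hy => simp [hx, hy]
  | single l c => rw [con_single, map_smul, h, smul_zero]

theorem con_mp (g : α → β) (f : β → ℤ) (x : FL α) : con f (mp g x) = mp g (con (f ∘ g) x) := by
  have h : ∀ l : List α, conL f (l.map g) = mp g (conL (f ∘ g) l) := by
    intro l
    induction l with
    | nil => simp [conL]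
    | cons a l ih =>
      rw [List.map_cons, conL, conL, map_sub, mp_consL, ih, map_smul, mp_single]
      rfl
  induction x using Finsupp.induction_linear with
  | zero => simp
  | add x y hx hy => simp [hx, hy]
  | single l c => rw [mp_single, con_single, con_single, h, map_smul]

/-! ### The relations -/

/-- the generators of the relations -/
inductive Gen : FL α → Prop
  | swap (u v : α) (q : List α) : Gen (single (u :: v :: q) 1 + single (v :: u :: q) 1)
  | dup (u : α) (q : List α) : Gen (single (u :: u :: q) 1)
  | cons (a : α) {x : FL α} (h : Gen x) : Gen (consL a x)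

variable (α) in
/-- the submodule of relations -/
noncomputable def Rel : Submodule ℤ (FL α) := Submodule.span ℤ {x | Gen x}

theorem swap_mem (u v : α) (x : FL α) : consL u (consL v x) + consL v (consL u x) ∈ Rel α := by
  induction x using Finsupp.induction_linear with
  | zero => simp
  | add x y hx hy =>
    have : consL u (consL v (x + y)) + consL v (consL u (x + y)) =
      (consL u (consL v x) + consL v (consL u x)) + (consL u (consL v y) + consL v (consL u y)) := by
      simp only [map_add]; abel
    rw [this]
    exact Submodule.add_mem _ hx hy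
  | single l c =>
    have : consL u (consL v (single l c)) + consL v (consL u (single l c)) =
      c • ((single (u :: v :: l) 1 + single (v :: u :: l) 1 : FL α)) := by
      simp
    rw [this]
    exact Submodule.smul_mem _ _ (Submodule.subset_span (Gen.swap u v l))

theorem dup_mem (u : α) (x : FL α) : consL u (consL u x) ∈ Rel α := by
  induction x using Finsupp.induction_linear with
  | zero => simp
  | add x y hx hy =>
    rw [map_add, map_add]
    exact Submodule.add_mem _ hx hy
  | single l c =>
    have : consL u (consL u (single l c)) = c • (single (u :: u :: l) 1 : FL α) := by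
      simp
    rw [this]
    exact Submodule.smul_mem _ _ (Submodule.subset_span (Gen.dup u l))

theorem consL_rel (a : α) : Rel α ≤ (Rel α).comap (consL a) := by
  refine Submodule.span_le.2 fun x hx => ?_
  exact Submodule.subset_span (Gen.cons a hx)

theorem con_rel (f : α → ℤ) : Rel α ≤ (Rel α).comap (con f) := by
  refine Submodule.span_le.2 fun x hx => ?_
  show con f x ∈ Rel α
  induction hx with
  | swap u v q =>
    have : con f (single (u :: v :: q) 1 + single (v :: u :: q) 1) =
      consL u (consL v (conL f q)) + consL v (consL u (conL f q)) := by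
      rw [map_add, con_single, con_single, conL, conL, conL, conL, map_sub, map_sub, map_smul,
        map_smul, consL_single, consL_single, one_smul, one_smul]
      abel
    rw [this]
    exact swap_mem u v _
  | dup u q =>
    have : con f (single (u :: u :: q) 1) = consL u (consL u (conL f q)) := by
      rw [con_single, conL, conL, map_sub, map_smul, consL_single, one_smul]
      abel
    rw [this]
    exact dup_mem u _
  | @cons a x hx ih =>
    rw [con_consL]
    exact Submodule.sub_mem _ (Submodule.smul_mem _ _ (Submodule.subset_span hx)) (consL_rel a ih)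

theorem mp_rel (g : α → β) : Rel α ≤ (Rel β).comap (mp g) := by
  refine Submodule.span_le.2 fun x hx => ?_
  show mp g x ∈ Rel β
  induction hx with
  | swap u v q =>
    rw [map_add, mp_single, mp_single]
    exact Submodule.subset_span (Gen.swap _ _ _)
  | dup u q =>
    rw [mp_single]
    exact Submodule.subset_span (Gen.dup _ _)
  | @cons a x hx ih =>
    rw [mp_consL]
    exact consL_rel _ ih

theorem gen_cases {x : FL α} (h : Gen x) :
    (∃ l₁ l₂ : List α, x = single l₁ 1 + single l₂ 1 ∧ l₁.Perm l₂ ∧ l₁ ≠ []) ∨
      ∃ l : List α, x = single l 1 ∧ l ≠ [] := by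
  induction h with
  | swap u v q => exact Or.inl ⟨_, _, rfl, List.Perm.swap _ _ _, by simp⟩
  | dup u q => exact Or.inr ⟨_, rfl, by simp⟩
  | @cons a x hx ih =>
    rcases ih with ⟨l₁, l₂, rfl, hp, hn⟩ | ⟨l, rfl, hn⟩
    · exact Or.inl ⟨a :: l₁, a :: l₂, by simp, hp.cons a, by simp⟩
    · exact Or.inr ⟨a :: l, by simp, by simp⟩

end Lists

/-! ### The quotient -/

/-- The quotient of the module of combinations of lists by the relations. -/
abbrev EE (α : Type*) : Type _ := FL α ⧸ Rel α

section Quot

variable {α β γ : Type*}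

/-- the class of a combination of lists -/
noncomputable def mkE : FL α →ₗ[ℤ] EE α := (Rel α).mkQ

theorem mkE_surj (x : EE α) : ∃ y, mkE y = x := Submodule.Quotient.mk_surjective _ x

/-- left multiplication with a letter -/
noncomputable def ins (a : α) : EE α →ₗ[ℤ] EE α := (Rel α).mapQ (Rel α) (consL a) (consL_rel a)

/-- contraction -/
noncomputable def Dc (f : α → ℤ) : EE α →ₗ[ℤ] EE α := (Rel α).mapQ (Rel α) (con f) (con_rel f)

/-- the functorial map -/
noncomputable def mpE (g : α → β) : EE α →ₗ[ℤ] EE β := (Rel α).mapQ (Rel β) (mp g) (mp_rel g)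

theorem ins_mkE (a : α) (x : FL α) : ins a (mkE x) = mkE (consL a x) := rfl

theorem Dc_mkE (f : α → ℤ) (x : FL α) : Dc f (mkE x) = mkE (con f x) := rfl

theorem mpE_mkE (g : α → β) (x : FL α) : mpE g (mkE x) = mkE (mp g x) := rfl

theorem ins_ins (u v : α) (x : EE α) : ins u (ins v x) = -ins v (ins u x) := by
  obtain ⟨y, rfl⟩ := mkE_surj x
  rw [eq_neg_iff_add_eq_zero, ins_mkE, ins_mkE, ins_mkE, ins_mkE, ← map_add]
  exact (Submodule.Quotient.mk_eq_zero _).2 (swap_mem u v y)

theorem ins_self (u : α) (x : EE α) : ins u (ins u x) = 0 := by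
  obtain ⟨y, rfl⟩ := mkE_surj x
  rw [ins_mkE, ins_mkE]
  exact (Submodule.Quotient.mk_eq_zero _).2 (dup_mem u y)

theorem Dc_ins (f : α → ℤ) (a : α) (x : EE α) : Dc f (ins a x) = f a • x - ins a (Dc f x) := by
  obtain ⟨y, rfl⟩ := mkE_surj x
  rw [ins_mkE, Dc_mkE, Dc_mkE, ins_mkE, con_consL, map_sub, map_smul]

theorem Dc_Dc (f g : α → ℤ) (x : EE α) : Dc f (Dc g x) = -Dc g (Dc f x) := by
  obtain ⟨y, rfl⟩ := mkE_surj x
  rw [Dc_mkE, Dc_mkE, Dc_mkE, Dc_mkE, con_anti, map_neg]

theorem Dc_self (f : α → ℤ) (x : EE α) : Dc f (Dc f x) = 0 := by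
  obtain ⟨y, rfl⟩ := mkE_surj x
  rw [Dc_mkE, Dc_mkE, con_self, map_zero]

theorem mpE_ins (g : α → β) (a : α) (x : EE α) : mpE g (ins a x) = ins (g a) (mpE g x) := by
  obtain ⟨y, rfl⟩ := mkE_surj x
  rw [ins_mkE, mpE_mkE, mpE_mkE, ins_mkE, mp_consL]

theorem Dc_mpE (g : α → β) (f : β → ℤ) (x : EE α) : Dc f (mpE g x) = mpE g (Dc (f ∘ g) x) := by
  obtain ⟨y, rfl⟩ := mkE_surj x
  rw [mpE_mkE, Dc_mkE, Dc_mkE, mpE_mkE, con_mp]

/-- the class of a list -/
noncomputable def word (l : List α) : EE α := mkE (single l 1)

theorem word_cons (a : α) (l : List α) : word (a :: l) = ins a (word l) := by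
  rw [word, word, ins_mkE, consL_single]

theorem mpE_word (g : α → β) (l : List α) : mpE g (word l) = word (l.map g) := by
  rw [word, word, mpE_mkE, mp_single]

theorem mpE_mpE (g : β → γ) (f : α → β) (x : EE α) : mpE g (mpE f x) = mpE (g ∘ f) x := by
  obtain ⟨y, rfl⟩ := mkE_surj x
  rw [mpE_mkE, mpE_mkE, mpE_mkE, mp_mp]

theorem Dc_nil (f : α → ℤ) : Dc f (word ([] : List α)) = 0 := by
  rw [word, Dc_mkE, con_single, conL, smul_zero, map_zero]

/-- the coefficient of the empty list -/
noncomputable def aug : EE α →ₗ[ℤ] ℤ := (Rel α).liftQ (Finsupp.lapply []) (by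
  refine Submodule.span_le.2 fun x hx => ?_
  show x [] = 0
  rcases gen_cases hx with ⟨l₁, l₂, rfl, hp, hn⟩ | ⟨l, rfl, hn⟩
  · have h2 : l₂ ≠ [] := by
      rintro rfl
      exact hn hp.eq_nil
    rw [Finsupp.add_apply, Finsupp.single_eq_of_ne (Ne.symm hn),
      Finsupp.single_eq_of_ne (Ne.symm h2)]
    rfl
  · rw [Finsupp.single_eq_of_ne (Ne.symm hn)])

theorem aug_nil : aug (word ([] : List α)) = 1 := by
  show (Finsupp.lapply ([] : List α) : FL α →ₗ[ℤ] ℤ) (single [] 1) = 1
  simp

theorem ins_word_mem {a : α} {l : List α} (h : a ∈ l) : ins a (word l) = 0 := by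
  induction l with
  | nil => simp at h
  | cons b l ih =>
    rw [word_cons]
    rcases List.mem_cons.1 h with rfl | h
    · exact ins_self _ _
    · rw [ins_ins, ih h, map_zero, neg_zero]

theorem word_dup {l : List α} (h : ¬ l.Nodup) : word l = 0 := by
  induction l with
  | nil => simp at h
  | cons a l ih =>
    rw [word_cons]
    by_cases ha : a ∈ l
    · exact ins_word_mem ha
    · rw [ih (fun hh => h (List.nodup_cons.2 ⟨ha, hh⟩)), map_zero]

theorem word_perm {l l' : List α} (h : l.Perm l') : word l = word l' ∨ word l = -word l' := by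
  induction h with
  | nil => exact Or.inl rfl
  | cons a _ ih =>
    rw [word_cons, word_cons]
    rcases ih with ih | ih
    · exact Or.inl (by rw [ih])
    · exact Or.inr (by rw [ih, map_neg])
  | swap a b l =>
    right
    rw [word_cons, word_cons, word_cons, word_cons, ins_ins]
  | trans _ _ ih1 ih2 =>
    rcases ih1 with h1 | h1 <;> rcases ih2 with h2 | h2
    · exact Or.inl (h1.trans h2)
    · exact Or.inr (h1.trans h2)
    · exact Or.inr (by rw [h1, h2])
    · exact Or.inl (by rw [h1, h2, neg_neg])

theorem word_perm_mem {l l' : List α} (h : l.Perm l') {M : Submodule ℤ (EE α)}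
    (hl : word l' ∈ M) : word l ∈ M := by
  rcases word_perm h with h | h
  · rwa [h]
  · rw [h]
    exact M.neg_mem hl

theorem Dc_congr {f g : α → ℤ} {l : List α} (h : ∀ a ∈ l, f a = g a) :
    Dc f (word l) = Dc g (word l) := by
  induction l with
  | nil => rw [Dc_nil, Dc_nil]
  | cons a l ih =>
    rw [word_cons, Dc_ins, Dc_ins, ih fun b hb => h b (List.mem_cons_of_mem _ hb),
      h a List.mem_cons_self]

theorem Dc_zero {f : α → ℤ} {l : List α} (h : ∀ a ∈ l, f a = 0) : Dc f (word l) = 0 := by
  induction l with
  | nil => rw [Dc_nil]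
  | cons a l ih =>
    rw [word_cons, Dc_ins, ih fun b hb => h b (List.mem_cons_of_mem _ hb),
      h a List.mem_cons_self, zero_smul, map_zero, sub_zero]

/-- The terms of a contraction. -/
theorem Dc_word_mem (f : α → ℤ) (l : List α) :
    Dc f (word l) ∈ Submodule.span ℤ {x | ∃ l' : List α, l'.Sublist l ∧
      l'.length + 1 = l.length ∧ x = word l'} := by
  induction l with
  | nil => rw [Dc_nil]; exact Submodule.zero_mem _
  | cons a l ih =>
    rw [word_cons, Dc_ins]
    refine Submodule.sub_mem _ (Submodule.smul_mem _ _ (Submodule.subset_span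
      ⟨l, List.sublist_cons_self a l, by simp, rfl⟩)) ?_
    have hle : Submodule.span ℤ {x | ∃ l' : List α, l'.Sublist l ∧
      l'.length + 1 = l.length ∧ x = word l'} ≤ (Submodule.span ℤ {x | ∃ l' : List α,
        l'.Sublist (a :: l) ∧ l'.length + 1 = (a :: l).length ∧ x = word l'}).comap (ins a) := by
      refine Submodule.span_le.2 ?_
      rintro x ⟨l', h1, h2, rfl⟩
      refine Submodule.subset_span ⟨a :: l', h1.cons_cons a, by simp [h2], ?_⟩
      rw [word_cons]
    exact hle ih

/-- the boundary map -/
noncomputable def bdE : EE α →ₗ[ℤ] EE α := Dc fun _ => 1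

theorem bdE_ins (a : α) (x : EE α) : bdE (ins a x) = x - ins a (bdE x) := by
  rw [bdE, Dc_ins, one_smul]

theorem bdE_bdE (x : EE α) : bdE (bdE x) = 0 := Dc_self _ _

theorem bdE_mpE (g : α → β) (x : EE α) : bdE (mpE g x) = mpE g (bdE x) := Dc_mpE _ _ _

end Quot

/-! ### Contraction with a letter -/

section Delta

variable {α : Type*} [DecidableEq α]

/-- the delta function -/
def dl (a : α) : α → ℤ := fun b => if b = a then 1 else 0

theorem dl_self (a : α) : dl a a = 1 := if_pos rfl

theorem dl_ne {a b : α} (h : b ≠ a) : dl a b = 0 := if_neg h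

/-- contraction with a letter -/
noncomputable def Dl (a : α) : EE α →ₗ[ℤ] EE α := Dc (dl a)

theorem Dl_ins_self (a : α) (x : EE α) : Dl a (ins a x) = x - ins a (Dl a x) := by
  rw [Dl, Dc_ins, dl_self, one_smul]

theorem Dl_ins_ne {a b : α} (h : b ≠ a) (x : EE α) : Dl a (ins b x) = -ins b (Dl a x) := by
  rw [Dl, Dc_ins, dl_ne h, zero_smul, zero_sub]

theorem Dl_bdE (a : α) (x : EE α) : Dl a (bdE x) = -bdE (Dl a x) := Dc_Dc _ _ _

theorem bdE_Dl (a : α) (x : EE α) : bdE (Dl a x) = -Dl a (bdE x) := Dc_Dc _ _ _

theorem Dl_Dl (a b : α) (x : EE α) : Dl a (Dl b x) = -Dl b (Dl a x) := Dc_Dc _ _ _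

theorem Dl_word_of_not_mem {a : α} {l : List α} (h : a ∉ l) : Dl a (word l) = 0 :=
  Dc_zero fun b hb => dl_ne fun e => h (e ▸ hb)

theorem Dl_word_mem (a : α) {l : List α} (hl : l.Nodup) :
    Dl a (word l) ∈ Submodule.span ℤ {x | ∃ l' : List α, l'.Sublist l ∧
      l'.length + 1 = l.length ∧ a ∉ l' ∧ x = word l'} := by
  induction l with
  | nil => rw [Dl, Dc_nil]; exact Submodule.zero_mem _
  | cons b l ih =>
    rw [List.nodup_cons] at hl
    rw [word_cons]
    by_cases hab : b = a
    · subst hab
      rw [Dl_ins_self, Dl_word_of_not_mem hl.1, map_zero, sub_zero]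
      exact Submodule.subset_span ⟨l, List.sublist_cons_self b l, by simp, hl.1, rfl⟩
    · rw [Dl_ins_ne hab]
      refine Submodule.neg_mem _ ?_
      have hle : Submodule.span ℤ {x | ∃ l' : List α, l'.Sublist l ∧
        l'.length + 1 = l.length ∧ a ∉ l' ∧ x = word l'} ≤ (Submodule.span ℤ {x | ∃ l' : List α,
          l'.Sublist (b :: l) ∧ l'.length + 1 = (b :: l).length ∧ a ∉ l' ∧
            x = word l'}).comap (ins b) := by
        refine Submodule.span_le.2 ?_
        rintro x ⟨l', h1, h2, h3, rfl⟩
        refine Submodule.subset_span ⟨b :: l', h1.cons_cons b, by simp [h2], ?_, ?_⟩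
        · simp [h3, Ne.symm hab]
        · rw [word_cons]
      exact hle (ih hl.2)

/-- a functional which is one on a given word -/
theorem exists_dual {l : List α} (h : l.Nodup) : ∃ φ : EE α →ₗ[ℤ] ℤ, φ (word l) = 1 := by
  induction l with
  | nil => exact ⟨aug, aug_nil⟩
  | cons a l ih =>
    rw [List.nodup_cons] at h
    obtain ⟨φ, hφ⟩ := ih h.2
    refine ⟨φ ∘ₗ Dl a, ?_⟩
    rw [LinearMap.comp_apply, word_cons, Dl_ins_self, Dl_word_of_not_mem h.1, map_zero, sub_zero,
      hφ]

end Delta

end Pool.Agent.KS6_98.Orb
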